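import Pool.Agent.LargeDist.Defs

set_option autoImplicit false

namespace Pool.Agent.LargeDist

open Finset

variable {d : ℕ}

theorem mem_dists {S : Finset (EuclideanSpace ℝ (Fin d))} {t : ℝ} :
    t ∈ dists S ↔ ∃ x ∈ S, ∃ y ∈ S, x ≠ y ∧ dist x y = t := by
  classical
  unfold dists
  simp only [Finset.mem_image, Finset.mem_offDiag, Prod.exists]
  constructor
  · rintro ⟨a, b, ⟨ha, hb, hab⟩, h⟩
    exact ⟨a, ha, b, hb, hab, h⟩
  · rintro ⟨a, ha, b, hb, hab, h⟩
    exact ⟨a, b, ⟨ha, hb, hab⟩, h⟩

theorem dists_mono {S T : Finset (EuclideanSpace ℝ (Fin d))} (h : S ⊆ T) : dists S ⊆ dists T := by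
  intro t ht
  rw [mem_dists] at ht ⊢
  obtain ⟨x, hx, y, hy, hxy, hd⟩ := ht
  exact ⟨x, h hx, y, h hy, hxy, hd⟩

theorem dists_pos {S : Finset (EuclideanSpace ℝ (Fin d))} {t : ℝ} (ht : t ∈ dists S) : 0 < t := by
  rw [mem_dists] at ht
  obtain ⟨x, hx, y, hy, hxy, rfl⟩ := ht
  exact dist_pos.2 hxy

theorem kthDist_mem {S : Finset (EuclideanSpace ℝ (Fin d))} {k : ℕ} (hk : 1 ≤ k)
    (hk' : k ≤ (dists S).card) : kthDist S k ∈ dists S := by
  have hlen : ((dists S).sort (· ≥ ·)).length = (dists S).card := Finset.length_sort _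
  have hlt : k - 1 < ((dists S).sort (· ≥ ·)).length := by omega
  unfold kthDist
  rw [List.getD_eq_getElem _ _ hlt]
  have := List.getElem_mem hlt
  rwa [Finset.mem_sort] at this

/-- exactly `k` distances are at least `d_k` -/
theorem card_filter_kthDist {S : Finset (EuclideanSpace ℝ (Fin d))} {k : ℕ} (hk : 1 ≤ k)
    (hk' : k ≤ (dists S).card) :
    ((dists S).filter (fun t => kthDist S k ≤ t)).card = k := by
  classical
  set l := (dists S).sort (· ≥ ·) with hl
  have hlen : l.length = (dists S).card := Finset.length_sort _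
  have hlt : k - 1 < l.length := by omega
  have hk0 : kthDist S k = l[k-1] := by
    unfold kthDist
    rw [List.getD_eq_getElem _ _ hlt]
  have hsort : l.SortedGT := Finset.sortedGT_sort (dists S)
  have hnd : l.Nodup := Finset.sort_nodup _ _
  have hst : ∀ i j : ℕ, (hi : i < l.length) → (hj : j < l.length) → i < j → l[j] < l[i] := by
    intro i j hi hj hij
    have := (List.pairwise_iff_getElem.1 hsort.pairwise) i j hi hj hij
    exact this
  have himg : (dists S).filter (fun t => kthDist S k ≤ t)
      = (Finset.univ : Finset (Fin k)).image (fun i : Fin k => l[(i : ℕ)]'(by have := i.2; omega)) := by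
    ext t
    simp only [Finset.mem_filter, Finset.mem_image, Finset.mem_univ, true_and]
    constructor
    · rintro ⟨ht, hkt⟩
      have ht' : t ∈ l := by rw [hl, Finset.mem_sort]; exact ht
      obtain ⟨i, hi, rfl⟩ := List.getElem_of_mem ht'
      have hik : i < k := by
        by_contra hcon
        have : k - 1 < i := by omega
        have h1 := hst (k-1) i hlt hi this
        rw [hk0] at hkt
        exact absurd hkt (not_le.2 h1)
      exact ⟨⟨i, hik⟩, rfl⟩
    · rintro ⟨i, rfl⟩
      have hi : (i : ℕ) < l.length := by have := i.2; omega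
      refine ⟨?_, ?_⟩
      · exact (Finset.mem_sort (r := (· ≥ ·))).1 (List.getElem_mem hi)
      · rw [hk0]
        rcases Nat.lt_or_ge (i : ℕ) (k - 1) with h | h
        · exact (hst i (k-1) hi hlt h).le
        · have : (i : ℕ) = k - 1 := by omega
          simp only [this]; exact le_refl _
  rw [himg, Finset.card_image_of_injective]
  · simp
  · intro i j hij
    have hi : (i : ℕ) < l.length := by have := i.2; omega
    have hj : (j : ℕ) < l.length := by have := j.2; omega
    have := (List.Nodup.getElem_inj_iff hnd (hi := hi) (hj := hj)).1 hij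
    exact Fin.ext this

theorem kthDist_le {S : Finset (EuclideanSpace ℝ (Fin d))} {k : ℕ} {r : ℝ} (hk : 1 ≤ k)
    (hk' : k ≤ (dists S).card) (hr : r ∈ dists S)
    (hcard : ((dists S).filter (fun t => r ≤ t)).card ≤ k) : kthDist S k ≤ r := by
  classical
  by_contra hcon
  push Not at hcon
  have h1 := card_filter_kthDist hk hk'
  have hsub : insert r ((dists S).filter (fun t => kthDist S k ≤ t))
      ⊆ (dists S).filter (fun t => r ≤ t) := by
    intro t ht
    rw [Finset.mem_insert] at ht
    rcases ht with rfl | ht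
    · simp [hr]
    · rw [Finset.mem_filter] at ht ⊢
      exact ⟨ht.1, hcon.le.trans ht.2⟩
  have hnot : r ∉ (dists S).filter (fun t => kthDist S k ≤ t) := by
    rw [Finset.mem_filter]
    rintro ⟨_, h⟩
    exact absurd h (not_le.2 hcon)
  have := Finset.card_le_card hsub
  rw [Finset.card_insert_of_notMem hnot, h1] at this
  omega

end Pool.Agent.LargeDist
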