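import Pool.Agent.LargeDist.Geom

set_option autoImplicit false

namespace Pool.Agent.LargeDist

open Finset Module

variable {d : ℕ}

/-- The finite set `P` can be split into `n` classes, none of which has two points at distance
at least `r`. -/
def Splits (P : Finset (EuclideanSpace ℝ (Fin d))) (r : ℝ) (n : ℕ) : Prop :=
  ∃ c : EuclideanSpace ℝ (Fin d) → ℕ, (∀ x ∈ P, c x < n) ∧
    ∀ x ∈ P, ∀ y ∈ P, c x = c y → dist x y < r

theorem Splits.mono {P : Finset (EuclideanSpace ℝ (Fin d))} {r : ℝ} {n m : ℕ} (h : Splits P r n)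
    (hnm : n ≤ m) : Splits P r m := by
  obtain ⟨c, hc, hc'⟩ := h
  exact ⟨c, fun x hx => (hc x hx).trans_le hnm, hc'⟩

theorem Splits.union [DecidableEq (EuclideanSpace ℝ (Fin d))]
    {P Q : Finset (EuclideanSpace ℝ (Fin d))} {r : ℝ} {a b : ℕ}
    (hP : Splits P r a) (hQ : Splits Q r b) : Splits (P ∪ Q) r (a + b) := by
  obtain ⟨c₁, h₁, h₁'⟩ := hP
  obtain ⟨c₂, h₂, h₂'⟩ := hQ
  refine ⟨fun x => if x ∈ P then c₁ x else a + c₂ x, ?_, ?_⟩
  · intro x hx
    by_cases hxP : x ∈ P
    · simp only [hxP, if_true]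
      have := h₁ x hxP
      omega
    · simp only [hxP, if_false]
      have hxQ : x ∈ Q := by
        rcases Finset.mem_union.1 hx with h | h
        · exact absurd h hxP
        · exact h
      have := h₂ x hxQ
      omega
  · intro x hx y hy hxy
    by_cases hxP : x ∈ P <;> by_cases hyP : y ∈ P
    · simp only [hxP, hyP, if_true] at hxy
      exact h₁' x hxP y hyP hxy
    · simp only [hxP, hyP, if_true, if_false] at hxy
      have := h₁ x hxP
      omega
    · simp only [hxP, hyP, if_true, if_false] at hxy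
      have := h₁ y hyP
      omega
    · simp only [hxP, hyP, if_false] at hxy
      have hxQ : x ∈ Q := by
        rcases Finset.mem_union.1 hx with h | h
        · exact absurd h hxP
        · exact h
      have hyQ : y ∈ Q := by
        rcases Finset.mem_union.1 hy with h | h
        · exact absurd h hyP
        · exact h
      exact h₂' x hxQ y hyQ (by omega)

theorem Splits.empty (r : ℝ) (n : ℕ) :
    Splits (∅ : Finset (EuclideanSpace ℝ (Fin d))) r n :=
  ⟨fun _ => 0, by simp, by simp⟩

theorem Splits.subset {P Q : Finset (EuclideanSpace ℝ (Fin d))} {r : ℝ} {n : ℕ}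
    (h : Splits Q r n) (hPQ : P ⊆ Q) : Splits P r n := by
  obtain ⟨c, hc, hc'⟩ := h
  exact ⟨c, fun x hx => hc x (hPQ hx), fun x hx y hy => hc' x (hPQ hx) y (hPQ hy)⟩

theorem Splits.biUnion [DecidableEq (EuclideanSpace ℝ (Fin d))] {r : ℝ} {b : ℕ}
    (N : Finset (EuclideanSpace ℝ (Fin d)))
    (P : EuclideanSpace ℝ (Fin d) → Finset (EuclideanSpace ℝ (Fin d)))
    (h : ∀ m ∈ N, Splits (P m) r b) : Splits (N.biUnion P) r (N.card * b) := by
  induction N using Finset.induction_on with
  | empty => simpa using Splits.empty r 0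
  | insert a s ha ih =>
    rw [Finset.biUnion_insert, Finset.card_insert_of_notMem ha]
    have h1 := h a (Finset.mem_insert_self a s)
    have h2 := ih (fun m hm => h m (Finset.mem_insert_of_mem hm))
    have := h1.union h2
    have e : (s.card + 1) * b = b + s.card * b := by ring
    rw [e]
    exact this

/-- a maximal separated subset -/
theorem exists_net (P : Finset (EuclideanSpace ℝ (Fin d))) (σ : ℝ) (hσ : 0 < σ) :
    ∃ N ⊆ P, (∀ x ∈ N, ∀ y ∈ N, x ≠ y → σ ≤ dist x y) ∧ ∀ x ∈ P, ∃ y ∈ N, dist x y < σ := by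
  classical
  induction P using Finset.induction_on with
  | empty => exact ⟨∅, by simp, by simp, by simp⟩
  | insert a s ha ih =>
    obtain ⟨N, hN, hsep, hnet⟩ := ih
    by_cases h : ∃ y ∈ N, dist a y < σ
    · refine ⟨N, hN.trans (Finset.subset_insert _ _), hsep, ?_⟩
      intro x hx
      rcases Finset.mem_insert.1 hx with rfl | hx
      · exact h
      · exact hnet x hx
    · push Not at h
      refine ⟨insert a N, Finset.insert_subset_insert _ hN, ?_, ?_⟩
      · intro x hx y hy hxy
        rcases Finset.mem_insert.1 hx with hxa | hx' <;>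
          rcases Finset.mem_insert.1 hy with hya | hy'
        · exact absurd (hxa.trans hya.symm) hxy
        · rw [hxa]; exact h y hy'
        · rw [hya, dist_comm]; exact h x hx'
        · exact hsep x hx' y hy' hxy
      · intro x hx
        rcases Finset.mem_insert.1 hx with rfl | hx
        · exact ⟨x, Finset.mem_insert_self _ _, by rw [dist_self]; exact hσ⟩
        · obtain ⟨y, hy, hxy⟩ := hnet x hx
          exact ⟨y, Finset.mem_insert_of_mem hy, hxy⟩

/-- colouring by a net -/
theorem splits_of_net {P N : Finset (EuclideanSpace ℝ (Fin d))} {r : ℝ}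
    (h : ∀ x ∈ P, ∃ y ∈ N, dist x y < r / 2) : Splits P r N.card := by
  classical
  choose! g hg hg' using h
  obtain ⟨e⟩ : Nonempty (N ≃ Fin N.card) := ⟨N.equivFin⟩
  refine ⟨fun x => if hx : g x ∈ N then (e ⟨g x, hx⟩ : ℕ) else 0, ?_, ?_⟩
  · intro x hx
    simp only [hg x hx, dif_pos]
    exact (e _).2
  · intro x hx y hy hxy
    simp only [hg x hx, hg y hy, dif_pos] at hxy
    have h1 : e ⟨g x, hg x hx⟩ = e ⟨g y, hg y hy⟩ := Fin.ext hxy
    have h2 : g x = g y := by
      have := e.injective h1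
      simpa using this
    calc dist x y ≤ dist x (g x) + dist (g x) y := dist_triangle _ _ _
      _ = dist x (g x) + dist y (g y) := by rw [h2, dist_comm (g y) y]
      _ < r / 2 + r / 2 := add_lt_add (hg' x hx) (hg' y hy)
      _ = r := by ring

/-- packing bound slightly beyond radius ratio two -/
theorem exists_good (d : ℕ) : ∃ δ : ℝ, 0 < δ ∧ ∀ (P : Finset (EuclideanSpace ℝ (Fin d)))
    (q : EuclideanSpace ℝ (Fin d)) (r : ℝ), 0 < r →
    (∀ x ∈ P, dist x q ≤ (1 + δ) * r) → (∀ x ∈ P, ∀ y ∈ P, x ≠ y → r / 2 ≤ dist x y) →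
    P.card ≤ 5 ^ d := by
  classical
  obtain ⟨δ, hδ, hδ1, H⟩ := Besicovitch.exists_goodδ (EuclideanSpace ℝ (Fin d))
  refine ⟨δ, hδ, ?_⟩
  intro P q r hr hball hsep
  have hpos : 0 < (1 + δ) * r := by positivity
  have hne : (1 + δ) * r ≠ 0 := hpos.ne'
  let φ : EuclideanSpace ℝ (Fin d) → EuclideanSpace ℝ (Fin d) :=
    fun x => (2 / ((1 + δ) * r)) • (x - q)
  have hφ : Function.Injective φ := by
    intro x y hxy
    have : x - q = y - q := by
      have h0 : (2 / ((1 + δ) * r)) ≠ 0 := by positivity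
      exact smul_right_injective _ h0 hxy
    simpa using this
  have hnorm : ∀ x y, ‖φ x - φ y‖ = 2 / ((1 + δ) * r) * dist x y := by
    intro x y
    simp only [φ]
    rw [← smul_sub, norm_smul, sub_sub_sub_cancel_right, dist_eq_norm, Real.norm_eq_abs,
      abs_of_pos (by positivity)]
  have key := H (P.image φ) ?_ ?_
  · rw [Finset.card_image_of_injective _ hφ] at key
    calc P.card ≤ _ := key
      _ ≤ 5 ^ finrank ℝ (EuclideanSpace ℝ (Fin d)) := Besicovitch.multiplicity_le
      _ = 5 ^ d := by rw [finrank_euclideanSpace_fin]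
  · intro c hc
    obtain ⟨x, hx, rfl⟩ := Finset.mem_image.1 hc
    have h1 : ‖φ x‖ = 2 / ((1 + δ) * r) * dist x q := by
      simp only [φ]
      rw [norm_smul, dist_eq_norm, Real.norm_eq_abs, abs_of_pos (by positivity)]
    rw [h1]
    calc 2 / ((1 + δ) * r) * dist x q ≤ 2 / ((1 + δ) * r) * ((1 + δ) * r) := by
          apply mul_le_mul_of_nonneg_left (hball x hx) (by positivity)
      _ = 2 := by field_simp
  · intro c hc c' hc' hcc'
    obtain ⟨x, hx, rfl⟩ := Finset.mem_image.1 hc
    obtain ⟨y, hy, rfl⟩ := Finset.mem_image.1 hc'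
    have hxy : x ≠ y := fun h => hcc' (by rw [h])
    rw [hnorm]
    have h1 : 2 / ((1 + δ) * r) * (r / 2) ≤ 2 / ((1 + δ) * r) * dist x y :=
      mul_le_mul_of_nonneg_left (hsep x hx y hy hxy) (by positivity)
    have h2 : 2 / ((1 + δ) * r) * (r / 2) = 1 / (1 + δ) := by field_simp
    have h3 : 1 - δ ≤ 1 / (1 + δ) := by
      rw [le_div_iff₀ (by positivity)]
      nlinarith
    linarith

/-- packing bound inside a flat -/
theorem card_le_flat {X P : Finset (EuclideanSpace ℝ (Fin d))} (hPX : P ⊆ X)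
    {m : EuclideanSpace ℝ (Fin d)} (hm : m ∈ X) {r : ℝ} (hr : 0 < r)
    (hball : ∀ x ∈ P, dist x m ≤ r) (hsep : ∀ x ∈ P, ∀ y ∈ P, x ≠ y → r / 2 ≤ dist x y) :
    P.card ≤ 5 ^ finrank ℝ (vectorSpan ℝ (X : Set (EuclideanSpace ℝ (Fin d)))) := by
  classical
  have hmem : ∀ x ∈ P, x - m ∈ vectorSpan ℝ (X : Set (EuclideanSpace ℝ (Fin d))) := by
    intro x hx
    exact vsub_mem_vectorSpan ℝ (hPX hx) hm
  let V := vectorSpan ℝ (X : Set (EuclideanSpace ℝ (Fin d)))
  let φ : EuclideanSpace ℝ (Fin d) → V := fun x =>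
    if h : x - m ∈ V then (2 / r) • ⟨x - m, h⟩ else 0
  have hφ : ∀ x ∈ P, ((φ x : V) : EuclideanSpace ℝ (Fin d)) = (2 / r) • (x - m) := by
    intro x hx
    have : φ x = (2 / r) • ⟨x - m, hmem x hx⟩ := by simp only [φ]; rw [dif_pos (hmem x hx)]
    rw [this]; rfl
  have hdiff : ∀ x ∈ P, ∀ y ∈ P, ‖φ x - φ y‖ = 2 / r * dist x y := by
    intro x hx y hy
    rw [Submodule.coe_norm, Submodule.coe_sub, hφ x hx, hφ y hy, ← smul_sub, norm_smul,
      sub_sub_sub_cancel_right, dist_eq_norm, Real.norm_eq_abs, abs_of_pos (by positivity)]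
  have hinj : Set.InjOn φ (P : Set (EuclideanSpace ℝ (Fin d))) := by
    intro x hx y hy hxy
    have h1 := hdiff x hx y hy
    rw [hxy, sub_self, norm_zero] at h1
    have h2 : dist x y = 0 := by
      have : (2 / r) ≠ 0 := by positivity
      have := (mul_eq_zero.1 h1.symm).resolve_left this
      exact this
    exact dist_eq_zero.1 h2
  have key := Besicovitch.card_le_of_separated (P.image φ) ?_ ?_
  · rw [Finset.card_image_of_injOn hinj] at key
    exact key
  · intro c hc
    obtain ⟨x, hx, rfl⟩ := Finset.mem_image.1 hc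
    have h1 : ‖φ x‖ = 2 / r * dist x m := by
      rw [Submodule.coe_norm, hφ x hx, norm_smul, dist_eq_norm, Real.norm_eq_abs,
        abs_of_pos (by positivity)]
    rw [h1]
    calc 2 / r * dist x m ≤ 2 / r * r := mul_le_mul_of_nonneg_left (hball x hx) (by positivity)
      _ = 2 := by field_simp
  · intro c hc c' hc' hcc'
    obtain ⟨x, hx, rfl⟩ := Finset.mem_image.1 hc
    obtain ⟨y, hy, rfl⟩ := Finset.mem_image.1 hc'
    have hxy : x ≠ y := fun h => hcc' (by rw [h])
    rw [hdiff x hx y hy]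
    calc (1 : ℝ) = 2 / r * (r / 2) := by field_simp
      _ ≤ _ := mul_le_mul_of_nonneg_left (hsep x hx y hy hxy) (by positivity)

/-- from a splitting to a bound for the chromatic number -/
theorem chromaticNumber_le_of_splits {S : Finset (EuclideanSpace ℝ (Fin d))} {k n : ℕ}
    (h : Splits S (kthDist S k) n) : (largeDistGraph S k).chromaticNumber ≤ n := by
  obtain ⟨c, hc, hc'⟩ := h
  have hcol : (largeDistGraph S k).Colorable n := by
    refine ⟨SimpleGraph.Coloring.mk (fun x => ⟨c x, hc x x.2⟩) ?_⟩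
    intro x y hxy heq
    have h1 : c x = c y := by simpa using heq
    have h2 := hc' x x.2 y y.2 h1
    exact absurd hxy.2 (not_le.2 h2)
  exact hcol.chromaticNumber_le

end Pool.Agent.LargeDist
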