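import Pool.Agent.LargeDist.Basic

set_option autoImplicit false

namespace Pool.Agent.LargeDist

open Finset Module

theorem exists_linearIsometry {V W : Type*} [NormedAddCommGroup V] [InnerProductSpace ℝ V]
    [FiniteDimensional ℝ V] [NormedAddCommGroup W] [InnerProductSpace ℝ W]
    [FiniteDimensional ℝ W] (h : finrank ℝ V ≤ finrank ℝ W) : Nonempty (V →ₗᵢ[ℝ] W) := by
  let bV := stdOrthonormalBasis ℝ V
  let bW := stdOrthonormalBasis ℝ W
  let f : V →ₗ[ℝ] W := bV.toBasis.constr ℝ (fun i => bW (Fin.castLE h i))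
  have hf : Orthonormal ℝ (f ∘ bV.toBasis) := by
    have : (f ∘ bV.toBasis) = bW ∘ (Fin.castLE h) := by
      funext i
      simp only [f, Function.comp_apply, Basis.constr_basis]
    rw [this]
    exact bW.orthonormal.comp _ (Fin.castLE_injective h)
  have hv : Orthonormal ℝ bV.toBasis := by
    rw [OrthonormalBasis.coe_toBasis]
    exact bV.orthonormal
  exact ⟨f.isometryOfOrthonormal hv hf⟩

theorem M_le_D (d k : ℕ) : M d k ≤ D (d - 2) k := by
  classical
  unfold M
  apply iSup_le
  rintro ⟨A, hrank, y, hy, hk⟩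
  rcases A.eq_empty_or_nonempty with rfl | hne
  · simp
  obtain ⟨a₀, ha₀⟩ := hne
  obtain ⟨φ⟩ : Nonempty (vectorSpan ℝ (A : Set (EuclideanSpace ℝ (Fin d))) →ₗᵢ[ℝ]
      EuclideanSpace ℝ (Fin (d - 2))) := by
    apply exists_linearIsometry
    rw [finrank_euclideanSpace_fin]
    omega
  have hmem : ∀ a ∈ A, a - a₀ ∈ vectorSpan ℝ (A : Set (EuclideanSpace ℝ (Fin d))) :=
    fun a ha => vsub_mem_vectorSpan ℝ ha ha₀
  let ψ : A → EuclideanSpace ℝ (Fin (d - 2)) := fun a => φ ⟨a.1 - a₀, hmem a.1 a.2⟩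
  have hψ : ∀ a b : A, dist (ψ a) (ψ b) = dist (a : EuclideanSpace ℝ (Fin d)) b := by
    intro a b
    simp only [ψ]
    rw [φ.dist_map, Subtype.dist_eq, dist_sub_right]
  have hinj : Function.Injective ψ := by
    intro a b hab
    have h := hψ a b
    rw [hab, dist_self] at h
    exact Subtype.ext (dist_eq_zero.1 h.symm)
  set B : Finset (EuclideanSpace ℝ (Fin (d - 2))) := A.attach.image ψ with hB
  have hBcard : B.card = A.card := by
    rw [hB, Finset.card_image_of_injective _ hinj, Finset.card_attach]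
  have hBd : (dists B).card ≤ k := by
    refine le_trans (Finset.card_le_card ?_) hk
    intro t ht
    obtain ⟨x, hx, z, hz, hxz, rfl⟩ := mem_dists.1 ht
    obtain ⟨a, -, rfl⟩ := Finset.mem_image.1 hx
    obtain ⟨b, -, rfl⟩ := Finset.mem_image.1 hz
    rw [hψ]
    refine mem_dists.2 ⟨a, Finset.mem_insert_of_mem a.2, b, Finset.mem_insert_of_mem b.2, ?_, rfl⟩
    intro h
    exact hxz (congrArg ψ (Subtype.ext h))
  rw [show ((A.card : ℕ∞)) = (B.card : ℕ∞) by rw [hBcard]]
  unfold D
  exact le_iSup (fun A : {A : Finset (EuclideanSpace ℝ (Fin (d - 2))) // (dists A).card ≤ k} =>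
    (A.1.card : ℕ∞)) ⟨B, hBd⟩

theorem D_le_M (d k : ℕ) (hd : 2 ≤ d) (hk : 1 ≤ k) : D (d - 2) ((k - 1) / 2) ≤ M d k := by
  classical
  unfold D
  apply iSup_le
  rintro ⟨B, hB⟩
  rcases B.eq_empty_or_nonempty with rfl | hne
  · simp
  obtain ⟨b₀, hb₀⟩ := hne
  obtain ⟨φ⟩ : Nonempty (EuclideanSpace ℝ (Fin (d - 2)) →ₗᵢ[ℝ] EuclideanSpace ℝ (Fin d)) := by
    apply exists_linearIsometry
    rw [finrank_euclideanSpace_fin, finrank_euclideanSpace_fin]
    omega
  set R : Submodule ℝ (EuclideanSpace ℝ (Fin d)) := LinearMap.range φ.toLinearMap with hR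
  have hRrank : finrank ℝ R = d - 2 := by
    rw [hR, LinearMap.finrank_range_of_inj φ.injective, finrank_euclideanSpace_fin]
  have hRperp : (Rᗮ : Submodule ℝ (EuclideanSpace ℝ (Fin d))) ≠ ⊥ := by
    intro h
    have h1 := Submodule.finrank_add_finrank_orthogonal R
    rw [h, finrank_bot, hRrank, finrank_euclideanSpace_fin] at h1
    omega
  obtain ⟨w₀, hw₀, hw₀0⟩ := Submodule.exists_mem_ne_zero_of_ne_bot hRperp
  obtain ⟨w, hw, hwn⟩ : ∃ w ∈ Rᗮ, ‖w‖ = 1 := by
    refine ⟨(1 / ‖w₀‖) • w₀, Submodule.smul_mem _ _ hw₀, ?_⟩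
    have : ‖w₀‖ ≠ 0 := norm_ne_zero_iff.2 hw₀0
    rw [norm_smul, norm_div, norm_norm, norm_one]
    field_simp
  set A : Finset (EuclideanSpace ℝ (Fin d)) := B.image φ with hA
  have hAcard : A.card = B.card := by
    rw [hA, Finset.card_image_of_injective _ φ.injective]
  have hAR : ∀ a ∈ A, a ∈ R := by
    intro a ha
    obtain ⟨b, -, rfl⟩ := Finset.mem_image.1 ha
    exact LinearMap.mem_range_self _ b
  have hspan : affineSpan ℝ (A : Set (EuclideanSpace ℝ (Fin d))) ≤ R.toAffineSubspace := by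
    rw [affineSpan_le]
    intro a ha
    exact hAR a ha
  have hvs : vectorSpan ℝ (A : Set (EuclideanSpace ℝ (Fin d))) ≤ R := by
    have := AffineSubspace.direction_le hspan
    rwa [direction_affineSpan, Submodule.toAffineSubspace_direction] at this
  set y : EuclideanSpace ℝ (Fin d) := φ b₀ + w with hy
  have hφb₀ : φ b₀ ∈ R := LinearMap.mem_range_self _ b₀
  have hyR : y ∉ R := by
    intro h
    have h1 : w ∈ R := by
      have : w = y - φ b₀ := by rw [hy]; abel
      rw [this]
      exact Submodule.sub_mem _ h hφb₀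
    have h2 : inner ℝ w w = (0 : ℝ) := Submodule.inner_right_of_mem_orthogonal h1 hw
    rw [inner_self_eq_zero] at h2
    rw [h2, norm_zero] at hwn
    exact zero_ne_one hwn
  have hdist : ∀ b, dist (φ b) y = Real.sqrt (dist b b₀ ^ 2 + 1) := by
    intro b
    have h1 : φ b - y = φ (b - b₀) - w := by
      rw [hy, map_sub]; abel
    have h2 : inner ℝ (φ (b - b₀)) w = (0 : ℝ) :=
      Submodule.inner_right_of_mem_orthogonal (LinearMap.mem_range_self _ _) hw
    have h3 : ‖φ (b - b₀) - w‖ ^ 2 = dist b b₀ ^ 2 + 1 := by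
      rw [norm_sub_sq_real, h2, hwn, φ.norm_map, dist_eq_norm]
      ring
    rw [dist_eq_norm, h1, ← h3, Real.sqrt_sq (norm_nonneg _)]
  have hcone : IsConeSet d k A := by
    refine ⟨?_, y, ?_, ?_⟩
    · have := Submodule.finrank_mono hvs
      omega
    · intro h
      exact hyR (hspan h)
    · have hsub : dists (insert y A) ⊆ dists B ∪
          (insert (0 : ℝ) (dists B)).image (fun t => Real.sqrt (t ^ 2 + 1)) := by
        have hmix : ∀ a ∈ A, dist a y ∈
            (insert (0 : ℝ) (dists B)).image (fun t => Real.sqrt (t ^ 2 + 1)) := by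
          intro a ha
          obtain ⟨b, hb, rfl⟩ := Finset.mem_image.1 ha
          rw [hdist, Finset.mem_image]
          refine ⟨dist b b₀, ?_, rfl⟩
          rw [Finset.mem_insert]
          by_cases hbb : b = b₀
          · left; rw [hbb, dist_self]
          · right; exact mem_dists.2 ⟨b, hb, b₀, hb₀, hbb, rfl⟩
        intro t ht
        obtain ⟨x, hx, z, hz, hxz, rfl⟩ := mem_dists.1 ht
        rw [Finset.mem_insert] at hx hz
        rw [Finset.mem_union]
        rcases hx with hx | hx <;> rcases hz with hz | hz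
        · exact absurd (hx.trans hz.symm) hxz
        · right; rw [hx, dist_comm]; exact hmix z hz
        · right; rw [hz]; exact hmix x hx
        · left
          obtain ⟨b, hb, rfl⟩ := Finset.mem_image.1 hx
          obtain ⟨c, hc, rfl⟩ := Finset.mem_image.1 hz
          rw [φ.dist_map]
          exact mem_dists.2 ⟨b, hb, c, hc, fun h => hxz (congrArg φ h), rfl⟩
      have h1 := Finset.card_le_card hsub
      have h2 := Finset.card_union_le (dists B)
        ((insert (0 : ℝ) (dists B)).image (fun t => Real.sqrt (t ^ 2 + 1)))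
      have h3 : ((insert (0 : ℝ) (dists B)).image (fun t => Real.sqrt (t ^ 2 + 1))).card ≤
          (dists B).card + 1 := Finset.card_image_le.trans (Finset.card_insert_le _ _)
      omega
  rw [show ((B.card : ℕ∞)) = (A.card : ℕ∞) by rw [hAcard]]
  unfold M
  exact le_iSup (fun A : {A : Finset (EuclideanSpace ℝ (Fin d)) // IsConeSet d k A} =>
    (A.1.card : ℕ∞)) ⟨A, hcone⟩

end Pool.Agent.LargeDist
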