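import Mathlib

set_option autoImplicit false

/-!
# The graph of large distances: definitions

`f d k` is the quantity of Erdos, Lovasz and Vesztergombi: the limit, as `n → ∞`, of the supremum
of the chromatic numbers of `G(S,k)` over the finite sets `S` in `ℝ^d` with at least `n` points
and at least `k` distinct distances.
-/

namespace Pool.Agent.LargeDist

/-- The finite set of all distances `|x - y|` between distinct points `x, y` of `S`. -/
noncomputable def dists {d : ℕ} (S : Finset (EuclideanSpace ℝ (Fin d))) : Finset ℝ :=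
  S.offDiag.image fun p => dist p.1 p.2

/-- `kthDist S k` is `d_k`: the `k`-th entry (counting from `1`) of the list of the distinct
distances of `S` written in decreasing order `d_1 > d_2 > ...`. -/
noncomputable def kthDist {d : ℕ} (S : Finset (EuclideanSpace ℝ (Fin d))) (k : ℕ) : ℝ :=
  ((dists S).sort (· ≥ ·)).getD (k - 1) 0

/-- The graph `G(S,k)` on the vertex set `S`: distinct points at distance at least `d_k` are
adjacent. -/
def largeDistGraph {d : ℕ} (S : Finset (EuclideanSpace ℝ (Fin d))) (k : ℕ) : SimpleGraph S where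
  Adj x y := x ≠ y ∧ kthDist S k ≤ dist (x : EuclideanSpace ℝ (Fin d)) y
  symm := ⟨fun x y h => ⟨h.1.symm, by rw [dist_comm]; exact h.2⟩⟩
  loopless := ⟨fun x h => h.1 rfl⟩

/-- `f d k = lim_{n → ∞} sup { χ(G(S,k)) : S ⊂ ℝ^d finite, |S| ≥ n, S has at least k distinct
distances }`.  The supremum is nonincreasing in `n`, so the limit is the infimum over `n`. -/
noncomputable def f (d k : ℕ) : ℕ∞ :=
  ⨅ n : ℕ, ⨆ S : {S : Finset (EuclideanSpace ℝ (Fin d)) // n ≤ S.card ∧ k ≤ (dists S).card},
    (largeDistGraph S.1 k).chromaticNumber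

/-- The graph on `X` in which distinct points at distance at least `r` are adjacent. -/
def thresholdGraph {d : ℕ} (X : Finset (EuclideanSpace ℝ (Fin d))) (r : ℝ) : SimpleGraph X where
  Adj x y := x ≠ y ∧ r ≤ dist (x : EuclideanSpace ℝ (Fin d)) y
  symm := ⟨fun x y h => ⟨h.1.symm, by rw [dist_comm]; exact h.2⟩⟩
  loopless := ⟨fun x h => h.1 rfl⟩

/-- `X` is a finite set in `ℝ^d` that lies in a flat of dimension at most `d - 2`, and for some
point `y` outside the affine hull of `X`, at distance at least `r` from every point of `X`, the set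
`X ∪ {y}` has at most `k` distinct distances that are at least `r`. -/
def IsFarSet (d k : ℕ) (X : Finset (EuclideanSpace ℝ (Fin d))) (r : ℝ) : Prop :=
  Module.finrank ℝ (vectorSpan ℝ (X : Set (EuclideanSpace ℝ (Fin d)))) + 2 ≤ d ∧
    ∃ y : EuclideanSpace ℝ (Fin d),
      y ∉ affineSpan ℝ (X : Set (EuclideanSpace ℝ (Fin d))) ∧ (∀ x ∈ X, r ≤ dist x y) ∧
        ((dists (insert y X)).filter (fun t => r ≤ t)).card ≤ k

/-- `F d k` is the largest chromatic number of `thresholdGraph X r` over all pairs `(X, r)` as in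
`IsFarSet`. -/
noncomputable def F (d k : ℕ) : ℕ∞ :=
  ⨆ p : {p : Finset (EuclideanSpace ℝ (Fin d)) × ℝ // IsFarSet d k p.1 p.2},
    (thresholdGraph p.1.1 p.1.2).chromaticNumber

/-- `A` is a finite set in `ℝ^d` that lies in a flat of dimension at most `d - 2`, and some point
`y` outside the affine hull of `A` can be added to `A` so that `A ∪ {y}` has at most `k` distinct
distances. -/
def IsConeSet (d k : ℕ) (A : Finset (EuclideanSpace ℝ (Fin d))) : Prop :=
  Module.finrank ℝ (vectorSpan ℝ (A : Set (EuclideanSpace ℝ (Fin d)))) + 2 ≤ d ∧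
    ∃ y : EuclideanSpace ℝ (Fin d),
      y ∉ affineSpan ℝ (A : Set (EuclideanSpace ℝ (Fin d))) ∧
        (dists (insert y A)).card ≤ k

/-- `M d k` is the largest size of a set `A` in `ℝ^d` as in `IsConeSet`. -/
noncomputable def M (d k : ℕ) : ℕ∞ :=
  ⨆ A : {A : Finset (EuclideanSpace ℝ (Fin d)) // IsConeSet d k A}, (A.1.card : ℕ∞)

/-- `D m k` is the largest size of a set in `ℝ^m` with at most `k` distinct distances. -/
noncomputable def D (m k : ℕ) : ℕ∞ :=
  ⨆ A : {A : Finset (EuclideanSpace ℝ (Fin m)) // (dists A).card ≤ k}, (A.1.card : ℕ∞)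

end Pool.Agent.LargeDist
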