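import Pool.Agent.LargeDist.Line

set_option autoImplicit false

namespace Pool.Agent.LargeDist

open Finset
open scoped Pointwise

theorem rd_neg (B : Finset ℝ) : rd (B.image (fun x => -x)) = rd B := by
  ext t
  rw [mem_rd, mem_rd]
  constructor
  · rintro ⟨x, hx, y, hy, hxy, rfl⟩
    obtain ⟨x', hx', rfl⟩ := Finset.mem_image.1 hx
    obtain ⟨y', hy', rfl⟩ := Finset.mem_image.1 hy
    refine ⟨x', hx', y', hy', fun h => hxy (by rw [h]), ?_⟩
    rw [← abs_neg]; congr 1; ring
  · rintro ⟨x, hx, y, hy, hxy, rfl⟩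
    refine ⟨-x, Finset.mem_image_of_mem _ hx, -y, Finset.mem_image_of_mem _ hy,
      fun h => hxy (neg_injective h), ?_⟩
    rw [← abs_neg]; congr 1; ring

theorem uu_neg (o ρ x : ℝ) : uu (-o) ρ (-x) = uu o ρ x := by
  unfold uu
  congr 1
  ring

theorem left_bound {B : Finset ℝ} {o ρ : ℝ} (hρ : 0 < ρ) (hB : (B - B).card ≤ 3 * B.card) :
    ((B.filter (fun b => b ≤ o ∧ uu o ρ b ∈ rd B)).card - 1) ^ 3 ≤ 27 * 6561 * B.card ^ 2 := by
  classical
  set B' := B.image (fun x => -x) with hB'
  have hcard : B'.card = B.card := Finset.card_image_of_injective _ neg_injective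
  have hneg : B' = -B := by rw [hB']; rfl
  have hsub : (B' - B').card = (B - B).card := by
    rw [hneg, neg_sub_neg]
  have h1 := right_bound (B := B') (o := -o) hρ (by rw [hsub, hcard]; exact hB)
  rw [hcard] at h1
  have h2 : (B'.filter (fun b => -o ≤ b ∧ uu (-o) ρ b ∈ rd B')) =
      (B.filter (fun b => b ≤ o ∧ uu o ρ b ∈ rd B)).image (fun x => -x) := by
    ext z
    simp only [Finset.mem_filter, Finset.mem_image, hB']
    constructor
    · rintro ⟨⟨x, hx, rfl⟩, h3, h4⟩
      refine ⟨x, ⟨hx, by linarith, ?_⟩, rfl⟩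
      rwa [uu_neg, rd_neg] at h4
    · rintro ⟨x, ⟨hx, h3, h4⟩, rfl⟩
      refine ⟨⟨x, hx, rfl⟩, by linarith, ?_⟩
      rwa [uu_neg, rd_neg]
  rw [h2, Finset.card_image_of_injective _ neg_injective] at h1
  exact h1

theorem card_le_rd (B : Finset ℝ) : B.card ≤ (rd B).card + 1 := by
  classical
  rcases B.eq_empty_or_nonempty with rfl | hne
  · simp
  have h1 : (B.erase (B.min' hne)).image (fun b => b - B.min' hne) ⊆ rd B := by
    intro t ht
    obtain ⟨b, hb, rfl⟩ := Finset.mem_image.1 ht
    rw [Finset.mem_erase] at hb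
    refine mem_rd.2 ⟨b, hb.2, B.min' hne, Finset.min'_mem _ _, hb.1, ?_⟩
    rw [abs_of_nonneg]
    have := Finset.min'_le B b hb.2
    linarith
  have h2 := Finset.card_le_card h1
  rw [Finset.card_image_of_injective _ (sub_left_injective), Finset.card_erase_of_mem
    (Finset.min'_mem _ _)] at h2
  omega

theorem card_le_two_mul_uu (B : Finset ℝ) (o ρ : ℝ) :
    B.card ≤ 2 * (B.image (uu o ρ)).card := by
  classical
  apply Finset.card_le_mul_card_image
  intro t _
  by_contra hcon
  push Not at hcon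
  obtain ⟨x, hx, y, hy, z, hz, hxy, hxz, hyz⟩ := Finset.two_lt_card.1 hcon
  rw [Finset.mem_filter] at hx hy hz
  have key : ∀ a b : ℝ, uu o ρ a = t → uu o ρ b = t → a ≠ b → a + b = 2 * o := by
    intro a b ha hb hab
    have h1 : uu o ρ a ^ 2 = uu o ρ b ^ 2 := by rw [ha, hb]
    rw [uu_sq, uu_sq] at h1
    have h2 : (a - b) * (a + b - 2 * o) = 0 := by nlinarith
    rcases mul_eq_zero.1 h2 with h | h
    · exact absurd (sub_eq_zero.1 h) hab
    · linarith
  have h1 := key x y hx.2 hy.2 hxy
  have h2 := key x z hx.2 hz.2 hxz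
  exact hyz (by linarith)

/-- Collinear points and one point off the line: the number of distances is at least
`3m/2 - O(m^{2/3})`. -/
theorem line_bound {B Δ : Finset ℝ} {o ρ : ℝ} (hρ : 0 < ρ) (h1 : rd B ⊆ Δ)
    (h2 : ∀ b ∈ B, uu o ρ b ∈ Δ) :
    3 * (B.card : ℝ) ≤ 2 * Δ.card + 6 + 228 * (B.card : ℝ) ^ (2 / 3 : ℝ) := by
  classical
  have hx0 : (0 : ℝ) ≤ (B.card : ℝ) ^ (2 / 3 : ℝ) := by positivity
  set x : ℝ := (B.card : ℝ) ^ (2 / 3 : ℝ) with hx
  have hx3 : x ^ 3 = (B.card : ℝ) ^ 2 := by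
    rw [hx, ← Real.rpow_natCast, ← Real.rpow_mul (by positivity)]
    norm_num
  have hrd := Finset.card_le_card h1
  rcases Nat.lt_or_ge (2 * (rd B).card) (3 * B.card) with hlt | hge
  · -- small difference set
    have hB : (B - B).card ≤ 3 * B.card := by
      have := card_sub_le B
      omega
    have hR := right_bound (o := o) hρ hB
    have hL := left_bound (o := o) hρ hB
    set R := B.filter (fun b => o ≤ b ∧ uu o ρ b ∈ rd B) with hRdef
    set L := B.filter (fun b => b ≤ o ∧ uu o ρ b ∈ rd B) with hLdef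
    have hbound : ∀ n : ℕ, (n - 1) ^ 3 ≤ 27 * 6561 * B.card ^ 2 → (n : ℝ) ≤ 1 + 57 * x := by
      intro n hn
      have h3 : ((n - 1 : ℕ) : ℝ) ^ 3 ≤ (57 * x) ^ 3 := by
        have h4 : ((n - 1 : ℕ) : ℝ) ^ 3 ≤ 27 * 6561 * (B.card : ℝ) ^ 2 := by exact_mod_cast hn
        rw [mul_pow, hx3]
        nlinarith [sq_nonneg (B.card : ℝ)]
      have h5 : ((n - 1 : ℕ) : ℝ) ≤ 57 * x :=
        (pow_le_pow_iff_left₀ (by positivity) (by positivity) (by norm_num)).1 h3
      rcases Nat.eq_zero_or_pos n with rfl | hpos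
      · simp only [Nat.cast_zero]; linarith
      · rw [Nat.cast_sub hpos] at h5
        push_cast at h5
        linarith
    have hR' := hbound _ hR
    have hL' := hbound _ hL
    have hinter : (rd B ∩ B.image (uu o ρ)).card ≤ R.card + L.card := by
      calc (rd B ∩ B.image (uu o ρ)).card ≤ ((R ∪ L).image (uu o ρ)).card := by
            apply Finset.card_le_card
            intro t ht
            rw [Finset.mem_inter, Finset.mem_image] at ht
            obtain ⟨ht1, b, hb, rfl⟩ := ht
            rw [Finset.mem_image]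
            refine ⟨b, ?_, rfl⟩
            rw [Finset.mem_union, hRdef, hLdef, Finset.mem_filter, Finset.mem_filter]
            rcases le_total o b with h | h
            · exact Or.inl ⟨hb, h, ht1⟩
            · exact Or.inr ⟨hb, h, ht1⟩
        _ ≤ (R ∪ L).card := Finset.card_image_le
        _ ≤ R.card + L.card := Finset.card_union_le _ _
    have hunion : (rd B ∪ B.image (uu o ρ)).card ≤ Δ.card := by
      apply Finset.card_le_card
      apply Finset.union_subset h1
      intro t ht
      obtain ⟨b, hb, rfl⟩ := Finset.mem_image.1 ht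
      exact h2 b hb
    have hsum := Finset.card_union_add_card_inter (rd B) (B.image (uu o ρ))
    have hE := card_le_two_mul_uu B o ρ
    have hD := card_le_rd B
    have hfin : 3 * B.card ≤ 2 * Δ.card + 2 + 2 * (R.card + L.card) := by omega
    have hfin' : 3 * (B.card : ℝ) ≤ 2 * Δ.card + 2 + 2 * (R.card + L.card) := by exact_mod_cast hfin
    linarith
  · have h3 : 3 * B.card ≤ 2 * Δ.card := by omega
    have h4 : 3 * (B.card : ℝ) ≤ 2 * Δ.card := by exact_mod_cast h3
    linarith

end Pool.Agent.LargeDist
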