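import Pool.Agent.LargeDist.Basic

set_option autoImplicit false

namespace Pool.Agent.LargeDist

open Finset Module

variable {d : ℕ}

/-- a point off a flat of dimension `≤ d - 2` can be rotated about the flat along a circle -/
theorem exists_circle {A : Finset (EuclideanSpace ℝ (Fin d))} (hA : A.Nonempty)
    (hrank : finrank ℝ (vectorSpan ℝ (A : Set (EuclideanSpace ℝ (Fin d)))) + 2 ≤ d)
    {y : EuclideanSpace ℝ (Fin d)} (hy : y ∉ affineSpan ℝ (A : Set (EuclideanSpace ℝ (Fin d)))) :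
    ∃ (ρ : ℝ) (g : ℝ → EuclideanSpace ℝ (Fin d)), 0 < ρ ∧ g 0 = y ∧
      (∀ φ, ∀ a ∈ A, dist a (g φ) = dist a y) ∧
      (∀ φ ψ, dist (g φ) (g ψ) ^ 2 = ρ ^ 2 * (2 - 2 * Real.cos (φ - ψ))) := by
  classical
  obtain ⟨a₀, ha₀⟩ := hA
  set K := vectorSpan ℝ (A : Set (EuclideanSpace ℝ (Fin d))) with hK
  set p : EuclideanSpace ℝ (Fin d) := K.starProjection (y - a₀) with hp
  have hpK : p ∈ K := Submodule.starProjection_apply_mem K _
  set v : EuclideanSpace ℝ (Fin d) := (y - a₀) - p with hv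
  have hvK : v ∈ Kᗮ := Submodule.sub_starProjection_mem_orthogonal _
  have hv0 : v ≠ 0 := by
    intro h0
    apply hy
    have h1 : y - a₀ ∈ K := by
      have : y - a₀ = p := sub_eq_zero.1 h0
      rw [this]; exact hpK
    have h2 : y = (y - a₀) +ᵥ a₀ := by simp
    rw [h2]
    exact vadd_mem_affineSpan_of_mem_affineSpan_of_mem_vectorSpan
      (subset_affineSpan ℝ _ ha₀) h1
  -- a vector orthogonal to K and v
  obtain ⟨w, hwK, hwv, hwnorm⟩ : ∃ w : EuclideanSpace ℝ (Fin d), w ∈ Kᗮ ∧ inner ℝ v w = 0 ∧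
      ‖w‖ = ‖v‖ := by
    have h1 : finrank ℝ (K ⊔ (ℝ ∙ v) : Submodule ℝ (EuclideanSpace ℝ (Fin d))) < d := by
      have h2 := Submodule.finrank_add_le_finrank_add_finrank K (ℝ ∙ v)
      have h3 := finrank_span_singleton (K := ℝ) hv0
      omega
    have h4 := Submodule.finrank_add_finrank_orthogonal (K ⊔ (ℝ ∙ v))
    rw [finrank_euclideanSpace_fin] at h4
    have h5 : 0 < finrank ℝ ((K ⊔ (ℝ ∙ v))ᗮ : Submodule ℝ (EuclideanSpace ℝ (Fin d))) := by omega
    have h6 : ((K ⊔ (ℝ ∙ v))ᗮ : Submodule ℝ (EuclideanSpace ℝ (Fin d))) ≠ ⊥ := by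
      intro h
      rw [h, finrank_bot] at h5
      exact lt_irrefl _ h5
    obtain ⟨w₀, hw₀, hw₀0⟩ := Submodule.exists_mem_ne_zero_of_ne_bot h6
    have hw₀K : w₀ ∈ Kᗮ := Submodule.orthogonal_le le_sup_left hw₀
    have hw₀v : inner ℝ v w₀ = 0 := by
      have : w₀ ∈ (ℝ ∙ v)ᗮ := Submodule.orthogonal_le le_sup_right hw₀
      exact Submodule.mem_orthogonal_singleton_iff_inner_right.1 this
    have hw₀n : ‖w₀‖ ≠ 0 := norm_ne_zero_iff.2 hw₀0
    refine ⟨(‖v‖ / ‖w₀‖) • w₀, Submodule.smul_mem _ _ hw₀K, ?_, ?_⟩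
    · rw [inner_smul_right, hw₀v, mul_zero]
    · rw [norm_smul, norm_div, norm_norm, norm_norm]
      field_simp
  have hvpos : 0 < ‖v‖ := norm_pos_iff.2 hv0
  let g : ℝ → EuclideanSpace ℝ (Fin d) := fun φ => (a₀ + p) + (Real.cos φ • v + Real.sin φ • w)
  have hcomb : ∀ s t : ℝ, ‖s • v + t • w‖ ^ 2 = ‖v‖ ^ 2 * (s ^ 2 + t ^ 2) := by
    intro s t
    rw [norm_add_sq_real, norm_smul, norm_smul, inner_smul_left, inner_smul_right, hwv, hwnorm,
      Real.norm_eq_abs, Real.norm_eq_abs, mul_pow, mul_pow, sq_abs, sq_abs]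
    simp
    ring
  have hdistA : ∀ φ, ∀ a ∈ A, dist a (g φ) ^ 2 = ‖(a - a₀) - p‖ ^ 2 + ‖v‖ ^ 2 := by
    intro φ a ha
    have hz : (a - a₀) - p ∈ K := Submodule.sub_mem _ (vsub_mem_vectorSpan ℝ ha ha₀) hpK
    have hg : Real.cos φ • v + Real.sin φ • w ∈ Kᗮ :=
      Submodule.add_mem _ (Submodule.smul_mem _ _ hvK) (Submodule.smul_mem _ _ hwK)
    have hin : inner ℝ ((a - a₀) - p) (Real.cos φ • v + Real.sin φ • w) = 0 :=
      Submodule.inner_right_of_mem_orthogonal hz hg
    have e : a - g φ = ((a - a₀) - p) - (Real.cos φ • v + Real.sin φ • w) := by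
      simp only [g]; abel
    rw [dist_eq_norm, e, norm_sub_sq_real, hin, hcomb, Real.cos_sq_add_sin_sq]
    ring
  have hg0 : g 0 = y := by
    simp only [g, Real.cos_zero, Real.sin_zero, one_smul, zero_smul, add_zero, hv]
    abel
  refine ⟨‖v‖, g, hvpos, hg0, ?_, ?_⟩
  · intro φ a ha
    have h1 := hdistA φ a ha
    have h2 := hdistA 0 a ha
    rw [hg0] at h2
    have h3 : dist a (g φ) ^ 2 = dist a y ^ 2 := h1.trans h2.symm
    exact (pow_left_inj₀ dist_nonneg dist_nonneg (by norm_num)).1 h3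
  · intro φ ψ
    have e : g φ - g ψ = (Real.cos φ - Real.cos ψ) • v + (Real.sin φ - Real.sin ψ) • w := by
      simp only [g, sub_smul]; abel
    rw [dist_eq_norm, e, hcomb, Real.cos_sub]
    have h1 := Real.cos_sq_add_sin_sq φ
    have h2 := Real.cos_sq_add_sin_sq ψ
    congr 1
    nlinarith [h1, h2]

/-- for a far set `X` there are arbitrarily large `S` containing `X` such that all distances
of `X` that are at least `r` are at least `d_k(S)` -/
theorem exists_large (d k : ℕ) (hk : 1 ≤ k) {X : Finset (EuclideanSpace ℝ (Fin d))} {r₀ : ℝ}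
    (hX : X.Nonempty) (hfar : IsFarSet d k X r₀) (n : ℕ) :
    ∃ S : Finset (EuclideanSpace ℝ (Fin d)), n ≤ S.card ∧ k ≤ (dists S).card ∧ X ⊆ S ∧
      ∀ x ∈ X, ∀ z ∈ X, x ≠ z → r₀ ≤ dist x z → kthDist S k ≤ dist x z := by
  classical
  obtain ⟨hrank, y, hy, hyr, hky⟩ := hfar
  obtain ⟨ρ, g, hρ, hg0, hgA, hgg⟩ := exists_circle hX hrank hy
  -- the minimum distance of X that is at least r₀
  obtain ⟨r, hr, hr₀, hrA, hrmem⟩ : ∃ r : ℝ, 0 < r ∧
      (((dists X).filter (fun t => r₀ ≤ t)).Nonempty → r₀ ≤ r) ∧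
      (∀ x ∈ X, ∀ z ∈ X, x ≠ z → r₀ ≤ dist x z → r ≤ dist x z) ∧
      (((dists X).filter (fun t => r₀ ≤ t)).Nonempty → r ∈ dists X) := by
    by_cases hne : ((dists X).filter (fun t => r₀ ≤ t)).Nonempty
    · have hm := Finset.min'_mem _ hne
      rw [Finset.mem_filter] at hm
      refine ⟨((dists X).filter (fun t => r₀ ≤ t)).min' hne, dists_pos hm.1, fun _ => hm.2, ?_,
        fun _ => hm.1⟩
      intro x hx z hz hxz hxr
      exact Finset.min'_le _ _ (Finset.mem_filter.2 ⟨mem_dists.2 ⟨x, hx, z, hz, hxz, rfl⟩, hxr⟩)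
    · refine ⟨1, one_pos, fun h => absurd h hne, ?_, fun h => absurd h hne⟩
      intro x hx z hz hxz hxr
      exact absurd ⟨_, Finset.mem_filter.2 ⟨mem_dists.2 ⟨x, hx, z, hz, hxz, rfl⟩, hxr⟩⟩ hne
  set N : ℕ := max n (k + 1) with hN
  have hN1 : 1 ≤ N := le_trans (by omega) (le_max_right n (k + 1))
  have hNpos : (0 : ℝ) < N := by exact_mod_cast hN1
  -- the step
  obtain ⟨η, hη, hη1, hη2⟩ : ∃ η : ℝ, 0 < η ∧ N * η ≤ 1 ∧ ρ * (N * η) < r := by
    refine ⟨min (1 / (N : ℝ)) (r / (2 * ρ * N)), by positivity, ?_, ?_⟩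
    · calc (N : ℝ) * min (1 / (N : ℝ)) (r / (2 * ρ * N)) ≤ N * (1 / N) :=
            mul_le_mul_of_nonneg_left (min_le_left _ _) hNpos.le
        _ = 1 := by field_simp
    · calc ρ * ((N : ℝ) * min (1 / (N : ℝ)) (r / (2 * ρ * N))) ≤ ρ * (N * (r / (2 * ρ * N))) := by
            apply mul_le_mul_of_nonneg_left _ hρ.le
            exact mul_le_mul_of_nonneg_left (min_le_right _ _) hNpos.le
        _ = r / 2 := by field_simp
        _ < r := by linarith
  set C : Finset (EuclideanSpace ℝ (Fin d)) := (Finset.range N).image (fun j : ℕ => g (j * η))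
    with hC
  -- distances from g 0
  have hinj : ∀ i ∈ Finset.range N, ∀ j ∈ Finset.range N,
      dist (g 0) (g (i * η)) = dist (g 0) (g (j * η)) → i = j := by
    intro i hi j hj hij
    have h1 := hgg 0 (i * η)
    have h2 := hgg 0 (j * η)
    rw [hij] at h1
    have h3 : Real.cos (0 - i * η) = Real.cos (0 - j * η) := by
      have h4 := h1.symm.trans h2
      have h5 : ρ ^ 2 ≠ 0 := by positivity
      have h6 := mul_left_cancel₀ h5 h4
      linarith
    rw [zero_sub, zero_sub, Real.cos_neg, Real.cos_neg] at h3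
    have hle : ∀ m ∈ Finset.range N, (m * η : ℝ) ∈ Set.Icc 0 Real.pi := by
      intro m hm
      rw [Finset.mem_range] at hm
      refine ⟨by positivity, ?_⟩
      have h7 : (m : ℝ) * η ≤ N * η := by
        apply mul_le_mul_of_nonneg_right _ hη.le
        exact_mod_cast hm.le
      linarith [Real.pi_gt_three]
    have h8 := Real.injOn_cos (hle i hi) (hle j hj) h3
    have h9 := mul_right_cancel₀ hη.ne' h8
    exact_mod_cast h9
  have hCcard : C.card = N := by
    rw [hC, Finset.card_image_of_injOn, Finset.card_range]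
    intro i hi j hj hij
    exact hinj i hi j hj (by simp only at hij; rw [hij])
  have hCsmall : ∀ x ∈ C, ∀ z ∈ C, dist x z < r := by
    intro x hx z hz
    rw [hC, Finset.mem_image] at hx hz
    obtain ⟨i, hi, rfl⟩ := hx
    obtain ⟨j, hj, rfl⟩ := hz
    rw [Finset.mem_range] at hi hj
    have h1 := hgg (i * η) (j * η)
    have h2 := Real.one_sub_sq_div_two_le_cos (x := (i * η - j * η))
    have habs : |(i * η - j * η : ℝ)| ≤ N * η := by
      have hi' : (i : ℝ) ≤ N := by exact_mod_cast hi.le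
      have hj' : (j : ℝ) ≤ N := by exact_mod_cast hj.le
      have hi0 : (0 : ℝ) ≤ i := Nat.cast_nonneg i
      have hj0 : (0 : ℝ) ≤ j := Nat.cast_nonneg j
      rw [abs_le]
      constructor <;> nlinarith
    have h3 : dist (g (i * η)) (g (j * η)) ^ 2 ≤ (ρ * (N * η)) ^ 2 := by
      rw [h1]
      have h4 : (i * η - j * η : ℝ) ^ 2 ≤ (N * η) ^ 2 := by
        rw [← sq_abs (i * η - j * η : ℝ)]
        exact pow_le_pow_left₀ (abs_nonneg _) habs 2
      have h5 : 2 - 2 * Real.cos (i * η - j * η) ≤ (N * η) ^ 2 := by linarith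
      calc ρ ^ 2 * (2 - 2 * Real.cos (i * η - j * η)) ≤ ρ ^ 2 * (N * η) ^ 2 :=
            mul_le_mul_of_nonneg_left h5 (by positivity)
        _ = (ρ * (N * η)) ^ 2 := by ring
    have h6 : dist (g (i * η)) (g (j * η)) ≤ ρ * (N * η) :=
      (pow_le_pow_iff_left₀ dist_nonneg (by positivity) (by norm_num)).1 h3
    linarith
  have hkd : k ≤ (dists (X ∪ C)).card := by
    have h1 : ((Finset.range N).erase 0).image (fun j : ℕ => dist (g 0) (g (j * η))) ⊆
        dists (X ∪ C) := by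
      intro t ht
      obtain ⟨j, hj, rfl⟩ := Finset.mem_image.1 ht
      rw [Finset.mem_erase] at hj
      have h0 : g 0 ∈ C := by
        rw [hC, Finset.mem_image]
        exact ⟨0, Finset.mem_range.2 (by omega), by simp⟩
      have hjC : g (j * η) ∈ C := by
        rw [hC, Finset.mem_image]
        exact ⟨j, hj.2, rfl⟩
      refine mem_dists.2 ⟨g 0, Finset.mem_union_right _ h0, g (j * η),
        Finset.mem_union_right _ hjC, ?_, rfl⟩
      intro heq
      apply hj.1
      refine hinj j hj.2 0 (Finset.mem_range.2 (by omega)) ?_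
      simp only [Nat.cast_zero, zero_mul]
      rw [← heq]
    have h2 := Finset.card_le_card h1
    rw [Finset.card_image_of_injOn, Finset.card_erase_of_mem (Finset.mem_range.2 (by omega)),
      Finset.card_range] at h2
    · have : k + 1 ≤ N := le_max_right _ _
      omega
    · intro i hi j hj hij
      have hi' := Finset.mem_of_mem_erase (Finset.mem_coe.1 hi)
      have hj' := Finset.mem_of_mem_erase (Finset.mem_coe.1 hj)
      exact hinj i hi' j hj' hij
  refine ⟨X ∪ C, ?_, hkd, Finset.subset_union_left, ?_⟩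
  · calc n ≤ N := le_max_left _ _
      _ = C.card := hCcard.symm
      _ ≤ (X ∪ C).card := Finset.card_le_card Finset.subset_union_right
  · intro x hx z hz hxz hxr
    have hne : ((dists X).filter (fun t => r₀ ≤ t)).Nonempty :=
      ⟨_, Finset.mem_filter.2 ⟨mem_dists.2 ⟨x, hx, z, hz, hxz, rfl⟩, hxr⟩⟩
    have hyA : ∀ a ∈ X, a ≠ y := by
      rintro a ha rfl
      exact hy (subset_affineSpan ℝ _ ha)
    have hrA' := hrmem hne
    have hr₀' := hr₀ hne
    have hkr : kthDist (X ∪ C) k ≤ r := by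
      apply kthDist_le hk hkd (dists_mono Finset.subset_union_left hrA')
      refine le_trans (Finset.card_le_card ?_) hky
      intro t ht
      rw [Finset.mem_filter] at ht
      obtain ⟨ht, hrt⟩ := ht
      rw [Finset.mem_filter]
      refine ⟨?_, hr₀'.trans hrt⟩
      obtain ⟨x, hx, z, hz, hxz, rfl⟩ := mem_dists.1 ht
      rw [Finset.mem_union] at hx hz
      have hmix : ∀ a ∈ X, ∀ c ∈ C, dist a c ∈ dists (insert y X) := by
        intro a ha c hc
        rw [hC, Finset.mem_image] at hc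
        obtain ⟨j, _, rfl⟩ := hc
        rw [hgA _ a ha]
        exact mem_dists.2 ⟨a, Finset.mem_insert_of_mem ha, y, Finset.mem_insert_self _ _,
          hyA a ha, rfl⟩
      rcases hx with hx | hx <;> rcases hz with hz | hz
      · exact mem_dists.2 ⟨x, Finset.mem_insert_of_mem hx, z, Finset.mem_insert_of_mem hz, hxz, rfl⟩
      · exact hmix x hx z hz
      · rw [dist_comm]; exact hmix z hz x hx
      · exact absurd hrt (not_le.2 (hCsmall x hx z hz))
    exact hkr.trans (hrA x hx z hz hxz hxr)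

theorem F_le_f (d k : ℕ) (hk : 1 ≤ k) : F d k ≤ f d k := by
  classical
  unfold F
  apply iSup_le
  rintro ⟨⟨X, r⟩, hX⟩
  simp only at hX ⊢
  rcases X.eq_empty_or_nonempty with rfl | hne
  · have : (thresholdGraph (∅ : Finset (EuclideanSpace ℝ (Fin d))) r).chromaticNumber = 0 := by
      exact SimpleGraph.chromaticNumber_eq_zero_of_isEmpty
    rw [this]
    exact zero_le
  unfold f
  apply le_iInf
  intro n
  obtain ⟨S, h1, h2, hXS, h3⟩ := exists_large d k hk hne hX n
  have hom : thresholdGraph X r →g largeDistGraph S k :=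
    { toFun := fun x => ⟨x.1, hXS x.2⟩
      map_rel' := by
        intro x z hxz
        have hne' : (x : EuclideanSpace ℝ (Fin d)) ≠ z := fun h => hxz.1 (Subtype.ext h)
        refine ⟨fun h => hne' (congrArg (fun u : S => u.1) h), ?_⟩
        exact h3 x.1 x.2 z.1 z.2 hne' hxz.2 }
  exact (SimpleGraph.chromaticNumber_mono_of_hom hom).trans
    (le_iSup (fun S : {S : Finset (EuclideanSpace ℝ (Fin d)) //
    n ≤ S.card ∧ k ≤ (dists S).card} => (largeDistGraph S.1 k).chromaticNumber) ⟨S, h1, h2⟩)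

theorem M_le_F (d k : ℕ) : M d k ≤ F d k := by
  classical
  unfold M
  apply iSup_le
  rintro ⟨A, hA⟩
  obtain ⟨hrank, y, hy, hk⟩ := hA
  have hfar : IsFarSet d k A 0 := by
    refine ⟨hrank, y, hy, fun x _ => dist_nonneg, ?_⟩
    exact (Finset.card_le_card (Finset.filter_subset _ _)).trans hk
  have htop : thresholdGraph A 0 = ⊤ := by
    ext x z
    simp only [thresholdGraph, SimpleGraph.top_adj]
    exact ⟨fun h => h.1, fun h => ⟨h, dist_nonneg⟩⟩
  have h1 : (thresholdGraph A 0).chromaticNumber = (A.card : ℕ∞) := by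
    rw [htop, SimpleGraph.chromaticNumber_top, Fintype.card_coe]
  simp only
  rw [← h1]
  unfold F
  exact le_iSup (fun p : {p : Finset (EuclideanSpace ℝ (Fin d)) × ℝ // IsFarSet d k p.1 p.2} =>
    (thresholdGraph p.1.1 p.1.2).chromaticNumber) ⟨(A, 0), hfar⟩

theorem M_le_f (d k : ℕ) (hk : 1 ≤ k) : M d k ≤ f d k := (M_le_F d k).trans (F_le_f d k hk)

end Pool.Agent.LargeDist
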