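import Pool.Agent.LargeDist.Upper
import Pool.Agent.LargeDist.Lower
import Pool.Agent.LargeDist.LineBound
import Pool.Agent.LargeDist.Compare

set_option autoImplicit false

namespace Pool.Agent.LargeDist

open Finset Module

variable {d : ℕ}

/-- coordinates on a line: a finite set `X` of affine rank at most one, and a point `y` off its
affine hull -/
theorem exists_coord {X : Finset (EuclideanSpace ℝ (Fin d))} (hne : X.Nonempty)
    (hrank : finrank ℝ (vectorSpan ℝ (X : Set (EuclideanSpace ℝ (Fin d)))) ≤ 1) :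
    ∃ h : EuclideanSpace ℝ (Fin d) → ℝ, (∀ x ∈ X, ∀ z ∈ X, |h x - h z| = dist x z) ∧
      ∀ y : EuclideanSpace ℝ (Fin d), y ∉ affineSpan ℝ (X : Set (EuclideanSpace ℝ (Fin d))) →
        ∃ o ρ : ℝ, 0 < ρ ∧ ∀ x ∈ X, dist x y = uu o ρ (h x) := by
  classical
  obtain ⟨a₀, ha₀⟩ := hne
  set K := vectorSpan ℝ (X : Set (EuclideanSpace ℝ (Fin d))) with hK
  obtain ⟨φ⟩ : Nonempty (K →ₗᵢ[ℝ] ℝ) := by
    apply exists_linearIsometry
    rw [finrank_self]
    exact hrank
  let h : EuclideanSpace ℝ (Fin d) → ℝ := fun x => if hx : x - a₀ ∈ K then φ ⟨x - a₀, hx⟩ else 0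
  have hmem : ∀ x ∈ X, x - a₀ ∈ K := fun x hx => vsub_mem_vectorSpan ℝ hx ha₀
  have hh : ∀ x (hx : x ∈ X), h x = φ ⟨x - a₀, hmem x hx⟩ := by
    intro x hx
    simp only [h]
    rw [dif_pos (hmem x hx)]
  refine ⟨h, ?_, ?_⟩
  · intro x hx z hz
    rw [hh x hx, hh z hz, ← Real.dist_eq, φ.dist_map, Subtype.dist_eq, dist_sub_right]
  · intro y hy
    set p : EuclideanSpace ℝ (Fin d) := K.starProjection (y - a₀) with hp
    have hpK : p ∈ K := Submodule.starProjection_apply_mem K _
    set v : EuclideanSpace ℝ (Fin d) := (y - a₀) - p with hv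
    have hvK : v ∈ Kᗮ := Submodule.sub_starProjection_mem_orthogonal _
    have hv0 : v ≠ 0 := by
      intro h0
      apply hy
      have h1 : y - a₀ ∈ K := by
        have : y - a₀ = p := sub_eq_zero.1 h0
        rw [this]; exact hpK
      have h2 : y = (y - a₀) +ᵥ a₀ := by simp
      rw [h2]
      exact vadd_mem_affineSpan_of_mem_affineSpan_of_mem_vectorSpan
        (subset_affineSpan ℝ _ ha₀) h1
    refine ⟨φ ⟨p, hpK⟩, ‖v‖, norm_pos_iff.2 hv0, ?_⟩
    intro x hx
    have hz : (x - a₀) - p ∈ K := Submodule.sub_mem _ (hmem x hx) hpK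
    have e : x - y = ((x - a₀) - p) - v := by rw [hv]; abel
    have hin : inner ℝ ((x - a₀) - p) v = 0 := Submodule.inner_right_of_mem_orthogonal hz hvK
    have h1 : ‖(x - a₀) - p‖ ^ 2 = (h x - φ ⟨p, hpK⟩) ^ 2 := by
      rw [hh x hx, ← sq_abs (φ ⟨x - a₀, hmem x hx⟩ - φ ⟨p, hpK⟩), ← Real.dist_eq, φ.dist_map,
        Subtype.dist_eq, dist_eq_norm]
    have h2 : dist x y ^ 2 = (h x - φ ⟨p, hpK⟩) ^ 2 + ‖v‖ ^ 2 := by
      rw [dist_eq_norm, e, norm_sub_sq_real, hin, h1]
      ring
    unfold uu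
    rw [← h2, Real.sqrt_sq dist_nonneg]

theorem cone_card_bound {k : ℕ} {A : Finset (EuclideanSpace ℝ (Fin 3))} (hA : IsConeSet 3 k A) :
    3 * (A.card : ℝ) ≤ 2 * k + 6 + 228 * (A.card : ℝ) ^ (2 / 3 : ℝ) ∧ A.card ≤ k + 1 := by
  classical
  obtain ⟨hrank, y, hy, hk⟩ := hA
  rcases A.eq_empty_or_nonempty with rfl | hne
  · constructor
    · simp only [Finset.card_empty, Nat.cast_zero, mul_zero]
      positivity
    · simp
  obtain ⟨h, hiso, hoff⟩ := exists_coord hne (by omega)
  obtain ⟨o, ρ, hρ, hdist⟩ := hoff y hy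
  set B := A.image h with hB
  have hinj : Set.InjOn h (A : Set (EuclideanSpace ℝ (Fin 3))) := by
    intro x hx z hz hxz
    have h1 := hiso x hx z hz
    rw [hxz, sub_self, abs_zero] at h1
    exact dist_eq_zero.1 h1.symm
  have hBcard : B.card = A.card := Finset.card_image_of_injOn hinj
  have h1 : rd B ⊆ dists (insert y A) := by
    intro t ht
    obtain ⟨x, hx, z, hz, hxz, rfl⟩ := mem_rd.1 ht
    obtain ⟨a, ha, rfl⟩ := Finset.mem_image.1 hx
    obtain ⟨b, hb, rfl⟩ := Finset.mem_image.1 hz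
    rw [hiso a ha b hb]
    exact mem_dists.2 ⟨a, Finset.mem_insert_of_mem ha, b, Finset.mem_insert_of_mem hb,
      fun h => hxz (by rw [h]), rfl⟩
  have h2 : ∀ b ∈ B, uu o ρ b ∈ dists (insert y A) := by
    intro b hb
    obtain ⟨a, ha, rfl⟩ := Finset.mem_image.1 hb
    rw [← hdist a ha]
    refine mem_dists.2 ⟨a, Finset.mem_insert_of_mem ha, y, Finset.mem_insert_self _ _, ?_, rfl⟩
    rintro rfl
    exact hy (subset_affineSpan ℝ _ ha)
  have key := line_bound hρ h1 h2
  rw [hBcard] at key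
  have hk' : ((dists (insert y A)).card : ℝ) ≤ k := by exact_mod_cast hk
  constructor
  · linarith
  · have h3 := card_le_rd B
    have h4 := Finset.card_le_card h1
    omega

/-- collinear sets split greedily -/
theorem splits_of_line {r : ℝ} (hr : 0 < r) {h : EuclideanSpace ℝ (Fin d) → ℝ} :
    ∀ (n : ℕ) (X : Finset (EuclideanSpace ℝ (Fin d))), X.card ≤ n →
      (∀ x ∈ X, ∀ z ∈ X, |h x - h z| = dist x z) →
      ∃ A ⊆ X, (∀ x ∈ A, ∀ z ∈ A, x ≠ z → r ≤ dist x z) ∧ Splits X r A.card := by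
  classical
  intro n
  induction n with
  | zero =>
    intro X hX _
    have : X = ∅ := Finset.card_eq_zero.1 (by omega)
    subst this
    exact ⟨∅, by simp, by simp, Splits.empty r _⟩
  | succ n ih =>
    intro X hX hiso
    rcases X.eq_empty_or_nonempty with rfl | hne
    · exact ⟨∅, by simp, by simp, Splits.empty r _⟩
    obtain ⟨x₀, hx₀, hmin⟩ := Finset.exists_min_image X h hne
    set P := X.filter (fun x => h x < h x₀ + r) with hP
    set Q := X.filter (fun x => ¬ h x < h x₀ + r) with hQ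
    have hPX : P ⊆ X := Finset.filter_subset _ _
    have hQX : Q ⊆ X := Finset.filter_subset _ _
    have hx₀Q : x₀ ∉ Q := by
      rw [hQ, Finset.mem_filter]
      rintro ⟨_, h2⟩
      exact h2 (by linarith)
    have hQcard : Q.card ≤ n := by
      have : Q.card < X.card := Finset.card_lt_card
        ⟨hQX, fun h3 => hx₀Q (h3 hx₀)⟩
      omega
    obtain ⟨A, hAQ, hAsep, hAsplit⟩ := ih Q hQcard (fun x hx z hz => hiso x (hQX hx) z (hQX hz))
    have hx₀A : x₀ ∉ A := fun h3 => hx₀Q (hAQ h3)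
    have hfar : ∀ z ∈ A, r ≤ dist x₀ z := by
      intro z hz
      have h3 := hAQ hz
      rw [hQ, Finset.mem_filter] at h3
      have h4 := not_lt.1 h3.2
      rw [← hiso x₀ hx₀ z h3.1, abs_sub_comm]
      exact le_trans (by linarith) (le_abs_self _)
    refine ⟨insert x₀ A, ?_, ?_, ?_⟩
    · exact Finset.insert_subset hx₀ (hAQ.trans hQX)
    · intro x hx z hz hxz
      rw [Finset.mem_insert] at hx hz
      rcases hx with hx | hx <;> rcases hz with hz | hz
      · exact absurd (hx.trans hz.symm) hxz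
      · rw [hx]; exact hfar z hz
      · rw [hz, dist_comm]; exact hfar x hx
      · exact hAsep x hx z hz hxz
    · rw [Finset.card_insert_of_notMem hx₀A]
      have hPsplit : Splits P r 1 := by
        refine ⟨fun _ => 0, fun _ _ => Nat.one_pos, ?_⟩
        intro x hx z hz _
        rw [hP, Finset.mem_filter] at hx hz
        rw [← hiso x hx.1 z hz.1, abs_lt]
        have h1 := hmin x hx.1
        have h2 := hmin z hz.1
        constructor <;> linarith [hx.2, hz.2]
      rw [add_comm]
      refine (hPsplit.union hAsplit).subset ?_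
      intro x hx
      rw [Finset.mem_union, hP, hQ, Finset.mem_filter, Finset.mem_filter]
      by_cases h3 : h x < h x₀ + r
      · exact Or.inl ⟨hx, h3⟩
      · exact Or.inr ⟨hx, h3⟩

/-- in dimension three the far graph is as large as the cone sets -/
theorem F_three_le (k : ℕ) : F 3 k ≤ M 3 k := by
  classical
  unfold F
  apply iSup_le
  rintro ⟨⟨X, r⟩, hX⟩
  simp only at hX ⊢
  rcases le_or_gt r 0 with hr | hr
  · -- the complete graph
    have hcone : IsConeSet 3 k X := by
      apply hX.cone (Finset.Subset.refl X)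
      intro x _ y _ _
      exact hr.trans dist_nonneg
    have h1 : (thresholdGraph X r).chromaticNumber ≤ (X.card : ℕ∞) := by
      have h2 := (thresholdGraph X r).colorable_of_fintype.chromaticNumber_le
      simpa using h2
    exact h1.trans (card_le_M hcone)
  obtain ⟨A, hAX, hAsep, hAsplit⟩ : ∃ A ⊆ X, (∀ x ∈ A, ∀ z ∈ A, x ≠ z → r ≤ dist x z) ∧
      Splits X r A.card := by
    rcases X.eq_empty_or_nonempty with rfl | hne
    · exact ⟨∅, by simp, by simp, Splits.empty _ _⟩
    have hrank := hX.1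
    obtain ⟨h, hiso, -⟩ := exists_coord hne (by omega)
    exact splits_of_line hr X.card X le_rfl hiso
  exact (chromaticNumber_threshold_le hAsplit).trans (card_le_M (hX.cone hAX hAsep))

theorem f_three_le (k : ℕ) (hk : 1 ≤ k) : f 3 k ≤ 5 ^ 3 + M 3 k := by
  have h1 := f_le_F 3 k (by norm_num) hk
  rw [add_comm]
  exact h1.trans (add_le_add_left (F_three_le k) _)

end Pool.Agent.LargeDist
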