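import Pool.Agent.LargeDist.Dim3

set_option autoImplicit false

namespace Pool.Agent.LargeDist

open Finset Module

theorem le_M_three (m k : ℕ) (h : (m - 1) + (m + 1) / 2 ≤ k) : (m : ℕ∞) ≤ M 3 k := by
  classical
  rcases Nat.eq_zero_or_pos m with rfl | hm
  · simp
  let e₁ : EuclideanSpace ℝ (Fin 3) := EuclideanSpace.single 0 1
  let e₂ : EuclideanSpace ℝ (Fin 3) := EuclideanSpace.single 1 1
  let p : ℕ → EuclideanSpace ℝ (Fin 3) := fun i => (i : ℝ) • e₁
  let c : ℝ := ((m : ℝ) - 1) / 2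
  let y : EuclideanSpace ℝ (Fin 3) := c • e₁ + e₂
  have hpp : ∀ i j : ℕ, dist (p i) (p j) = |(i : ℝ) - j| := by
    intro i j
    simp only [p, e₁]
    rw [dist_eq_norm, ← sub_smul, norm_smul, PiLp.norm_single, norm_one, mul_one,
      Real.norm_eq_abs]
  have hpy : ∀ i : ℕ, dist (p i) y = Real.sqrt (((i : ℝ) - c) ^ 2 + 1) := by
    intro i
    rw [EuclideanSpace.dist_eq]
    congr 1
    rw [Fin.sum_univ_three]
    simp [p, y, e₁, e₂, Real.dist_eq, sq_abs]
  have hinj : Function.Injective p := by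
    intro i j hij
    have h1 := hpp i j
    rw [hij, dist_self] at h1
    have h2 := abs_eq_zero.1 h1.symm
    have h3 : (i : ℝ) = j := by linarith
    exact_mod_cast h3
  set A : Finset (EuclideanSpace ℝ (Fin 3)) := (Finset.range m).image p with hA
  have hAcard : A.card = m := by
    rw [hA, Finset.card_image_of_injective _ hinj, Finset.card_range]
  have hspan : affineSpan ℝ (A : Set (EuclideanSpace ℝ (Fin 3))) ≤
      (ℝ ∙ e₁ : Submodule ℝ (EuclideanSpace ℝ (Fin 3))).toAffineSubspace := by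
    rw [affineSpan_le]
    intro a ha
    obtain ⟨i, -, rfl⟩ := Finset.mem_image.1 (Finset.mem_coe.1 ha)
    exact Submodule.smul_mem _ _ (Submodule.mem_span_singleton_self e₁)
  have hvs : vectorSpan ℝ (A : Set (EuclideanSpace ℝ (Fin 3))) ≤ (ℝ ∙ e₁) := by
    have := AffineSubspace.direction_le hspan
    rwa [direction_affineSpan, Submodule.toAffineSubspace_direction] at this
  have hy : y ∉ affineSpan ℝ (A : Set (EuclideanSpace ℝ (Fin 3))) := by
    intro hmem
    have h1 : y ∈ (ℝ ∙ e₁ : Submodule ℝ (EuclideanSpace ℝ (Fin 3))) := hspan hmem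
    obtain ⟨t, ht⟩ := Submodule.mem_span_singleton.1 h1
    have h2 := congrFun (congrArg (fun v : EuclideanSpace ℝ (Fin 3) => v.ofLp) ht) 1
    simp [y, e₁, e₂] at h2
  have hcone : IsConeSet 3 k A := by
    refine ⟨?_, y, hy, ?_⟩
    · have h1 := Submodule.finrank_mono hvs
      have h2 : finrank ℝ (ℝ ∙ e₁ : Submodule ℝ (EuclideanSpace ℝ (Fin 3))) ≤ 1 := by
        refine (finrank_span_le_card ({e₁} : Set (EuclideanSpace ℝ (Fin 3)))).trans ?_
        simp
      omega
    · have hsub : dists (insert y A) ⊆ (Finset.Icc 1 (m - 1)).image (fun j : ℕ => (j : ℝ)) ∪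
          (Finset.range ((m + 1) / 2)).image
            (fun j : ℕ => Real.sqrt (((j : ℝ) - c) ^ 2 + 1)) := by
        have hmix : ∀ a ∈ A, dist a y ∈ (Finset.range ((m + 1) / 2)).image
            (fun j : ℕ => Real.sqrt (((j : ℝ) - c) ^ 2 + 1)) := by
          intro a ha
          obtain ⟨i, hi, rfl⟩ := Finset.mem_image.1 ha
          rw [Finset.mem_range] at hi
          rw [hpy, Finset.mem_image]
          rcases Nat.lt_or_ge i ((m + 1) / 2) with hlt | hge
          · exact ⟨i, Finset.mem_range.2 hlt, rfl⟩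
          · refine ⟨m - 1 - i, Finset.mem_range.2 (by omega), ?_⟩
            have h3 : ((m - 1 - i : ℕ) : ℝ) = (m : ℝ) - 1 - i := by
              rw [Nat.cast_sub (by omega), Nat.cast_sub (by omega)]; norm_num
            rw [h3]
            congr 1
            simp only [c]
            ring
        intro t ht
        obtain ⟨x, hx, z, hz, hxz, rfl⟩ := mem_dists.1 ht
        rw [Finset.mem_insert] at hx hz
        rw [Finset.mem_union]
        rcases hx with hx | hx <;> rcases hz with hz | hz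
        · exact absurd (hx.trans hz.symm) hxz
        · right; rw [hx, dist_comm]; exact hmix z hz
        · right; rw [hz]; exact hmix x hx
        · left
          obtain ⟨i, hi, rfl⟩ := Finset.mem_image.1 hx
          obtain ⟨j, hj, rfl⟩ := Finset.mem_image.1 hz
          rw [Finset.mem_range] at hi hj
          have hij : i ≠ j := fun h => hxz (congrArg p h)
          rw [hpp, Finset.mem_image]
          rcases Nat.lt_or_gt_of_ne hij with hlt | hgt
          · refine ⟨j - i, Finset.mem_Icc.2 (by omega), ?_⟩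
            rw [Nat.cast_sub hlt.le, abs_of_neg]
            · ring
            · have : (i : ℝ) < j := by exact_mod_cast hlt
              linarith
          · refine ⟨i - j, Finset.mem_Icc.2 (by omega), ?_⟩
            rw [Nat.cast_sub hgt.le, abs_of_pos]
            have : (j : ℝ) < i := by exact_mod_cast hgt
            linarith
      have h1 := Finset.card_le_card hsub
      have h2 := Finset.card_union_le ((Finset.Icc 1 (m - 1)).image (fun j : ℕ => (j : ℝ)))
        ((Finset.range ((m + 1) / 2)).image (fun j : ℕ => Real.sqrt (((j : ℝ) - c) ^ 2 + 1)))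
      have h3 : ((Finset.Icc 1 (m - 1)).image (fun j : ℕ => (j : ℝ))).card ≤ m - 1 :=
        Finset.card_image_le.trans (by rw [Nat.card_Icc]; omega)
      have h4 : ((Finset.range ((m + 1) / 2)).image
          (fun j : ℕ => Real.sqrt (((j : ℝ) - c) ^ 2 + 1))).card ≤ (m + 1) / 2 :=
        Finset.card_image_le.trans (by rw [Finset.card_range])
      omega
  have h5 : (m : ℕ∞) = (A.card : ℕ∞) := by rw [hAcard]
  rw [h5]
  unfold M
  exact le_iSup (fun A : {A : Finset (EuclideanSpace ℝ (Fin 3)) // IsConeSet 3 k A} =>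
    (A.1.card : ℕ∞)) ⟨A, hcone⟩

theorem f_three (k : ℕ) (hk : 1 ≤ k) : ∃ N : ℕ, f 3 k = N ∧ (2 * (k : ℝ) - 1) / 3 ≤ N ∧
    (N : ℝ) ≤ 2 * k / 3 + 300 * (k : ℝ) ^ (2 / 3 : ℝ) := by
  have hkr : (1 : ℝ) ≤ k := by exact_mod_cast hk
  have hK1 : (1 : ℝ) ≤ (k : ℝ) ^ (2 / 3 : ℝ) := Real.one_le_rpow hkr (by norm_num)
  -- upper bound for M
  have hMle : ∀ A, IsConeSet 3 k A → (A.card : ℝ) ≤ 2 * k / 3 + 2 + 152 * (k : ℝ) ^ (2 / 3 : ℝ) := by
    intro A hA
    obtain ⟨h1, h2⟩ := cone_card_bound hA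
    have h3 : (A.card : ℝ) ≤ 2 * k := by
      have : (A.card : ℝ) ≤ k + 1 := by exact_mod_cast h2
      linarith
    have h4 : (A.card : ℝ) ^ (2 / 3 : ℝ) ≤ (2 * (k : ℝ)) ^ (2 / 3 : ℝ) :=
      Real.rpow_le_rpow (by positivity) h3 (by norm_num)
    have h5 : (2 * (k : ℝ)) ^ (2 / 3 : ℝ) ≤ 2 * (k : ℝ) ^ (2 / 3 : ℝ) := by
      rw [Real.mul_rpow (by norm_num) (by positivity)]
      have h6 : (2 : ℝ) ^ (2 / 3 : ℝ) ≤ 2 ^ (1 : ℝ) :=
        Real.rpow_le_rpow_of_exponent_le (by norm_num) (by norm_num)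
      rw [Real.rpow_one] at h6
      exact mul_le_mul_of_nonneg_right h6 (by positivity)
    linarith
  set b : ℝ := 2 * k / 3 + 2 + 152 * (k : ℝ) ^ (2 / 3 : ℝ) with hb
  have hb0 : 0 ≤ b := by positivity
  have hM : M 3 k ≤ (⌊b⌋₊ : ℕ∞) := by
    unfold M
    apply iSup_le
    rintro ⟨A, hA⟩
    have := hMle A hA
    exact_mod_cast Nat.le_floor this
  have hf : f 3 k ≤ ((125 + ⌊b⌋₊ : ℕ) : ℕ∞) := by
    refine (f_three_le k hk).trans ?_
    have h3 : ((125 + ⌊b⌋₊ : ℕ) : ℕ∞) = 5 ^ 3 + (⌊b⌋₊ : ℕ∞) := by push_cast; norm_num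
    rw [h3]
    exact add_le_add_right hM _
  have hne : f 3 k ≠ ⊤ := by
    intro h
    rw [h] at hf
    exact absurd hf (by simp)
  obtain ⟨N, hN⟩ := ENat.ne_top_iff_exists.1 hne
  refine ⟨N, hN.symm, ?_, ?_⟩
  · have h1 : (((2 * k + 1) / 3 : ℕ) : ℕ∞) ≤ f 3 k :=
      (le_M_three ((2 * k + 1) / 3) k (by omega)).trans (M_le_f 3 k hk)
    rw [← hN] at h1
    have h2 : (2 * k + 1) / 3 ≤ N := by exact_mod_cast h1
    have h3 : 2 * k ≤ 3 * N + 1 := by omega
    have h4 : 2 * (k : ℝ) ≤ 3 * N + 1 := by exact_mod_cast h3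
    linarith
  · rw [← hN] at hf
    have h1 : N ≤ 125 + ⌊b⌋₊ := by exact_mod_cast hf
    have h2 : (N : ℝ) ≤ 125 + (⌊b⌋₊ : ℝ) := by exact_mod_cast h1
    have h3 : (⌊b⌋₊ : ℝ) ≤ b := Nat.floor_le hb0
    linarith

end Pool.Agent.LargeDist
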