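import Pool.Agent.LargeDist.Basic

set_option autoImplicit false

namespace Pool.Agent.LargeDist

open Finset Module

variable {d : ℕ}

/-- two points with the same distances to the points of `t` that lie in the span of `t` agree -/
theorem eq_of_dist_eq_of_mem_span {t : Set (EuclideanSpace ℝ (Fin d))}
    {x y : EuclideanSpace ℝ (Fin d)} (h : ∀ p ∈ t, dist p x = dist p y)
    (hx : x ∈ affineSpan ℝ t) : x = y := by
  have h1 : t ⊆ (AffineSubspace.perpBisector x y : Set (EuclideanSpace ℝ (Fin d))) := by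
    intro p hp
    exact AffineSubspace.mem_perpBisector_iff_dist_eq.2 (h p hp)
  have h2 : affineSpan ℝ t ≤ AffineSubspace.perpBisector x y := affineSpan_le.2 h1
  have h3 := AffineSubspace.mem_perpBisector_iff_dist_eq.1 (h2 hx)
  rw [dist_self] at h3
  exact dist_eq_zero.1 h3.symm

/-- a finite spanning subset of at most `d + 1` points -/
theorem exists_small_span (S : Finset (EuclideanSpace ℝ (Fin d))) :
    ∃ F ⊆ S, F.card ≤ d + 1 ∧
      affineSpan ℝ (F : Set (EuclideanSpace ℝ (Fin d))) =
        affineSpan ℝ (S : Set (EuclideanSpace ℝ (Fin d))) := by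
  classical
  obtain ⟨t, hts, hspan, hind⟩ :=
    exists_affineIndependent ℝ (EuclideanSpace ℝ (Fin d)) (S : Set (EuclideanSpace ℝ (Fin d)))
  have hfin : t.Finite := S.finite_toSet.subset hts
  lift t to Finset (EuclideanSpace ℝ (Fin d)) using hfin
  refine ⟨t, by exact_mod_cast hts, ?_, hspan⟩
  have h1 := hind.card_le_finrank_succ
  have h2 := Submodule.finrank_le (vectorSpan ℝ (Set.range (fun x : {x // x ∈
    (t : Set (EuclideanSpace ℝ (Fin d)))} => (x : EuclideanSpace ℝ (Fin d)))))
  rw [finrank_euclideanSpace_fin] at h2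
  have h3 : Fintype.card (t : Set (EuclideanSpace ℝ (Fin d))) = t.card := by simp
  have h4 : Fintype.card (t : Set (EuclideanSpace ℝ (Fin d))) ≤ d + 1 :=
    h1.trans (Nat.add_le_add_right h2 1)
  omega

/-- sets with at most `k` distances have bounded size -/
theorem card_le_of_dists (k : ℕ) (S : Finset (EuclideanSpace ℝ (Fin d)))
    (h : (dists S).card ≤ k) : S.card ≤ (k + 1) ^ (d + 1) := by
  classical
  obtain ⟨F, hFS, hF, hspan⟩ := exists_small_span S
  let φ : EuclideanSpace ℝ (Fin d) → (F → ℝ) := fun x p => dist (p : EuclideanSpace ℝ (Fin d)) x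
  have hmaps : ∀ x ∈ S, φ x ∈ Fintype.piFinset (fun _ : F => insert (0 : ℝ) (dists S)) := by
    intro x hx
    rw [Fintype.mem_piFinset]
    intro p
    rw [Finset.mem_insert]
    by_cases hpx : (p : EuclideanSpace ℝ (Fin d)) = x
    · left; simp [φ, hpx]
    · right; exact mem_dists.2 ⟨p, hFS p.2, x, hx, hpx, rfl⟩
  have hinj : Set.InjOn φ (S : Set (EuclideanSpace ℝ (Fin d))) := by
    intro x hx y hy hxy
    apply eq_of_dist_eq_of_mem_span (t := (F : Set (EuclideanSpace ℝ (Fin d))))
    · intro p hp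
      exact congrFun hxy ⟨p, hp⟩
    · rw [hspan]; exact subset_affineSpan ℝ _ hx
  have h1 := Finset.card_le_card_of_injOn φ hmaps hinj
  rw [Fintype.card_piFinset] at h1
  simp only [Finset.prod_const, Finset.card_univ, Fintype.card_coe] at h1
  have h2 : (insert (0 : ℝ) (dists S)).card ≤ k + 1 :=
    (Finset.card_insert_le _ _).trans (by omega)
  calc S.card ≤ _ := h1
    _ ≤ (k + 1) ^ F.card := Nat.pow_le_pow_left h2 _
    _ ≤ (k + 1) ^ (d + 1) := Nat.pow_le_pow_right (by omega) hF

/-- Three distinct points equidistant from all points of a nonempty set `X` force `X` into a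
flat of dimension at most `d - 2`, and these points are off this flat. -/
theorem finrank_of_three {X : Set (EuclideanSpace ℝ (Fin d))} (hX : X.Nonempty)
    {y₁ y₂ y₃ : EuclideanSpace ℝ (Fin d)} (h12 : y₁ ≠ y₂) (h13 : y₁ ≠ y₃) (h23 : y₂ ≠ y₃)
    (h2 : ∀ x ∈ X, dist x y₁ = dist x y₂) (h3 : ∀ x ∈ X, dist x y₁ = dist x y₃) :
    finrank ℝ (vectorSpan ℝ X) + 2 ≤ d ∧ y₁ ∉ affineSpan ℝ X := by
  obtain ⟨x₀, hx₀⟩ := hX
  constructor
  · have hcos : EuclideanGeometry.Cospherical ({y₁, y₂, y₃} : Set (EuclideanSpace ℝ (Fin d))) := by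
      refine ⟨x₀, dist x₀ y₁, ?_⟩
      intro p hp
      simp only [Set.mem_insert_iff, Set.mem_singleton_iff] at hp
      rcases hp with rfl | rfl | rfl
      · exact dist_comm _ _
      · rw [dist_comm, h2 x₀ hx₀]
      · rw [dist_comm, h3 x₀ hx₀]
    have hind : AffineIndependent ℝ ![y₁, y₂, y₃] := hcos.affineIndependent_of_ne h12 h13 h23
    have hrank : finrank ℝ (vectorSpan ℝ (Set.range ![y₁, y₂, y₃])) = 2 :=
      hind.finrank_vectorSpan (by simp)
    have hperp : vectorSpan ℝ X ≤ (vectorSpan ℝ (Set.range ![y₁, y₂, y₃]))ᗮ := by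
      have e2 : vectorSpan ℝ X ≤ (AffineSubspace.perpBisector y₁ y₂).direction := by
        rw [← direction_affineSpan]
        apply AffineSubspace.direction_le
        rw [affineSpan_le]
        intro p hp
        exact AffineSubspace.mem_perpBisector_iff_dist_eq.2 (h2 p hp)
      have e3 : vectorSpan ℝ X ≤ (AffineSubspace.perpBisector y₁ y₃).direction := by
        rw [← direction_affineSpan]
        apply AffineSubspace.direction_le
        rw [affineSpan_le]
        intro p hp
        exact AffineSubspace.mem_perpBisector_iff_dist_eq.2 (h3 p hp)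
      rw [AffineSubspace.direction_perpBisector] at e2 e3
      intro v hv
      have v2 := Submodule.mem_orthogonal_singleton_iff_inner_right.1 (e2 hv)
      have v3 := Submodule.mem_orthogonal_singleton_iff_inner_right.1 (e3 hv)
      rw [Submodule.mem_orthogonal]
      intro u hu
      have hy1mem : y₁ ∈ Set.range ![y₁, y₂, y₃] := Set.mem_range.2 ⟨0, rfl⟩
      rw [vectorSpan_eq_span_vsub_set_right ℝ hy1mem] at hu
      refine Submodule.span_induction (p := fun u _ => inner ℝ u v = 0) ?_ ?_ ?_ ?_ hu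
      · rintro w ⟨q, ⟨i, rfl⟩, rfl⟩
        fin_cases i
        · simp
        · simpa using v2
        · simpa using v3
      · simp
      · intro a b _ _ ha hb
        rw [inner_add_left, ha, hb, add_zero]
      · intro c a _ ha
        rw [inner_smul_left, ha, mul_zero]
    have h5 := Submodule.finrank_mono hperp
    have h6 := Submodule.finrank_add_finrank_orthogonal (vectorSpan ℝ (Set.range ![y₁, y₂, y₃]))
    rw [finrank_euclideanSpace_fin, hrank] at h6
    omega
  · intro hmem
    exact h12 (eq_of_dist_eq_of_mem_span h2 hmem)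

/-- The far set of a large cluster lies in a flat of dimension at most `d - 2`. -/
theorem far_flat {k : ℕ} {Ds : Finset ℝ} (hDs : Ds.card ≤ k) (hd : 2 ≤ d)
    {C X : Finset (EuclideanSpace ℝ (Fin d))} (hC : 2 * (k + 1) ^ (d + 1) < C.card)
    (h : ∀ x ∈ X, ∀ c ∈ C, dist x c ∈ Ds) :
    finrank ℝ (vectorSpan ℝ (X : Set (EuclideanSpace ℝ (Fin d)))) + 2 ≤ d ∧
      ∃ y ∈ C, y ∉ affineSpan ℝ (X : Set (EuclideanSpace ℝ (Fin d))) := by
  classical
  rcases X.eq_empty_or_nonempty with rfl | hX
  · have : C.Nonempty := Finset.card_pos.1 (by omega)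
    obtain ⟨y, hy⟩ := this
    refine ⟨?_, y, hy, ?_⟩
    · rw [Finset.coe_empty, vectorSpan_empty, finrank_bot]; omega
    · rw [Finset.coe_empty, AffineSubspace.span_empty]
      exact AffineSubspace.notMem_bot ℝ _ y
  obtain ⟨F, hFX, hF, hspan⟩ := exists_small_span X
  have hFne : F.Nonempty := by
    rw [Finset.nonempty_iff_ne_empty]
    rintro rfl
    rw [Finset.coe_empty, AffineSubspace.span_empty] at hspan
    obtain ⟨x, hx⟩ := hX
    have : x ∈ affineSpan ℝ (X : Set (EuclideanSpace ℝ (Fin d))) := subset_affineSpan ℝ _ hx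
    rw [← hspan] at this
    exact this
  let φ : EuclideanSpace ℝ (Fin d) → (F → ℝ) := fun c p => dist (p : EuclideanSpace ℝ (Fin d)) c
  have hmaps : ∀ c ∈ C, φ c ∈ Fintype.piFinset (fun _ : F => Ds) := by
    intro c hc
    rw [Fintype.mem_piFinset]
    intro p
    exact h p (hFX p.2) c hc
  have hcard : (Fintype.piFinset (fun _ : F => Ds)).card * 2 < C.card := by
    rw [Fintype.card_piFinset]
    simp only [Finset.prod_const, Finset.card_univ, Fintype.card_coe]
    have : Ds.card ^ F.card ≤ (k + 1) ^ (d + 1) :=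
      (Nat.pow_le_pow_left (by omega) _).trans (Nat.pow_le_pow_right (by omega) hF)
    omega
  obtain ⟨g, hg, hgc⟩ := Finset.exists_lt_card_fiber_of_mul_lt_card_of_maps_to hmaps hcard
  obtain ⟨y₁, hy₁, y₂, hy₂, y₃, hy₃, h12, h13, h23⟩ := Finset.two_lt_card.1 hgc
  rw [Finset.mem_filter] at hy₁ hy₂ hy₃
  have key := finrank_of_three (X := (F : Set (EuclideanSpace ℝ (Fin d)))) hFne h12 h13 h23
    (fun x hx => congrFun (hy₁.2.trans hy₂.2.symm) ⟨x, hx⟩)
    (fun x hx => congrFun (hy₁.2.trans hy₃.2.symm) ⟨x, hx⟩)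
  have hv : vectorSpan ℝ (F : Set (EuclideanSpace ℝ (Fin d))) =
      vectorSpan ℝ (X : Set (EuclideanSpace ℝ (Fin d))) := by
    rw [← direction_affineSpan, ← direction_affineSpan, hspan]
  rw [hv, hspan] at key
  exact ⟨key.1, y₁, hy₁.1, key.2⟩

end Pool.Agent.LargeDist
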