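import Pool.Agent.LargeDist.Lower
import Pool.Agent.LargeDist.Compare

set_option autoImplicit false

namespace Pool.Agent.LargeDist

open Finset Module

/-- the grid `{0, ..., n - 1}^m` has at most `m (n - 1)^2` distinct distances -/
theorem grid_le_D (m k n : ℕ) (h : m * (n - 1) ^ 2 ≤ k) : ((n ^ m : ℕ) : ℕ∞) ≤ D m k := by
  classical
  let p : (Fin m → Fin n) → EuclideanSpace ℝ (Fin m) := fun a => WithLp.toLp 2 fun i => ((a i : ℕ) : ℝ)
  have hinj : Function.Injective p := by
    intro a b hab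
    funext i
    have h1 := congrFun (congrArg (fun v : EuclideanSpace ℝ (Fin m) => v.ofLp) hab) i
    simp only [p] at h1
    have h2 : (a i : ℕ) = (b i : ℕ) := by exact_mod_cast h1
    exact Fin.ext h2
  set A : Finset (EuclideanSpace ℝ (Fin m)) := Finset.univ.image p with hA
  have hAcard : A.card = n ^ m := by
    rw [hA, Finset.card_image_of_injective _ hinj, Finset.card_univ, Fintype.card_fun,
      Fintype.card_fin, Fintype.card_fin]
  have hsub : dists A ⊆ (Finset.Icc 1 (m * (n - 1) ^ 2)).image (fun j : ℕ => Real.sqrt (j : ℝ)) := by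
    intro t ht
    obtain ⟨x, hx, z, hz, hxz, rfl⟩ := mem_dists.1 ht
    obtain ⟨a, -, rfl⟩ := Finset.mem_image.1 hx
    obtain ⟨b, -, rfl⟩ := Finset.mem_image.1 hz
    have hab : a ≠ b := fun h => hxz (congrArg p h)
    have h1 : dist (p a) (p b) = Real.sqrt ((∑ i, (((a i : ℕ) : ℤ) - ((b i : ℕ) : ℤ)).natAbs ^ 2 : ℕ) : ℝ) := by
      rw [EuclideanSpace.dist_eq]
      congr 1
      push_cast
      apply Finset.sum_congr rfl
      intro i _
      simp only [p, Real.dist_eq]
      rw [Nat.cast_natAbs]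
      push_cast
      rfl
    rw [h1, Finset.mem_image]
    refine ⟨_, Finset.mem_Icc.2 ⟨?_, ?_⟩, rfl⟩
    · obtain ⟨i, hi⟩ := Function.ne_iff.1 hab
      have h2 : 1 ≤ (((a i : ℕ) : ℤ) - ((b i : ℕ) : ℤ)).natAbs ^ 2 := by
        apply Nat.one_le_pow
        rw [Int.natAbs_pos, sub_ne_zero]
        intro h3
        exact hi (Fin.ext (by exact_mod_cast h3))
      exact h2.trans (Finset.single_le_sum
        (f := fun i => (((a i : ℕ) : ℤ) - ((b i : ℕ) : ℤ)).natAbs ^ 2) (fun _ _ => Nat.zero_le _)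
        (Finset.mem_univ i))
    · calc ∑ i, (((a i : ℕ) : ℤ) - ((b i : ℕ) : ℤ)).natAbs ^ 2 ≤ ∑ _i : Fin m, (n - 1) ^ 2 := by
            apply Finset.sum_le_sum
            intro i _
            apply Nat.pow_le_pow_left
            have h2 := (a i).2
            have h3 := (b i).2
            omega
        _ = m * (n - 1) ^ 2 := by simp
  have hk : (dists A).card ≤ k := by
    refine (Finset.card_le_card hsub).trans (Finset.card_image_le.trans ?_)
    rw [Nat.card_Icc]
    omega
  rw [← hAcard]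
  unfold D
  exact le_iSup (fun A : {A : Finset (EuclideanSpace ℝ (Fin m)) // (dists A).card ≤ k} =>
    (A.1.card : ℕ∞)) ⟨A, hk⟩

end Pool.Agent.LargeDist
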