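import Pool.Agent.LargeDist.Squeeze

set_option autoImplicit false

/-!
# Distances determined by collinear points and one further point
-/

namespace Pool.Agent.LargeDist

open Finset
open scoped Pointwise

/-- the set of positive differences of a finite set of reals -/
noncomputable def rd (B : Finset ℝ) : Finset ℝ := B.offDiag.image (fun p => |p.1 - p.2|)

/-- distance from the point with coordinate `x` on the line to the point at height `ρ` over `o` -/
noncomputable def uu (o ρ x : ℝ) : ℝ := Real.sqrt ((x - o) ^ 2 + ρ ^ 2)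

theorem mem_rd {B : Finset ℝ} {t : ℝ} : t ∈ rd B ↔ ∃ x ∈ B, ∃ y ∈ B, x ≠ y ∧ |x - y| = t := by
  unfold rd
  simp only [Finset.mem_image, Finset.mem_offDiag, Prod.exists]
  constructor
  · rintro ⟨a, b, ⟨ha, hb, hab⟩, h⟩
    exact ⟨a, ha, b, hb, hab, h⟩
  · rintro ⟨a, ha, b, hb, hab, h⟩
    exact ⟨a, b, ⟨ha, hb, hab⟩, h⟩

theorem uu_sq (o ρ x : ℝ) : uu o ρ x ^ 2 = (x - o) ^ 2 + ρ ^ 2 :=
  Real.sq_sqrt (by positivity)

theorem uu_nonneg (o ρ x : ℝ) : 0 ≤ uu o ρ x := Real.sqrt_nonneg _

theorem uu_lt {o ρ x y : ℝ} (hx : o ≤ x) (hxy : x < y) : uu o ρ x < uu o ρ y := by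
  unfold uu
  apply Real.sqrt_lt_sqrt (by positivity)
  nlinarith

theorem lt_uu {o ρ x : ℝ} (hρ : 0 < ρ) : x - o < uu o ρ x := by
  unfold uu
  apply Real.lt_sqrt_of_sq_lt
  nlinarith

/-- the gap pair determines the position -/
theorem uu_conv {o ρ x x' δ : ℝ} (hρ : 0 < ρ) (hx : o ≤ x) (hxx : x < x') (hδ : 0 < δ) :
    uu o ρ (x + δ) - uu o ρ x ≠ uu o ρ (x' + δ) - uu o ρ x' := by
  intro h
  set η := uu o ρ (x + δ) - uu o ρ x with hη
  have h1 : (uu o ρ x + η) ^ 2 = (x + δ - o) ^ 2 + ρ ^ 2 := by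
    rw [← uu_sq]; congr 1; rw [hη]; ring
  have h2 : (uu o ρ x' + η) ^ 2 = (x' + δ - o) ^ 2 + ρ ^ 2 := by
    rw [← uu_sq]; congr 1; rw [h]; ring
  have h3 := uu_sq o ρ x
  have h4 := uu_sq o ρ x'
  have hU : x - o < uu o ρ x := lt_uu hρ
  have hU' : x' - o < uu o ρ x' := lt_uu hρ
  have hlt : uu o ρ x < uu o ρ x' := uu_lt hx hxx
  have hηpos : 0 < η := by
    have : uu o ρ x < uu o ρ (x + δ) := uu_lt hx (by linarith)
    linarith
  set U := uu o ρ x
  set U' := uu o ρ x'
  -- 2 η U + η² = 2 δ (x - o) + δ²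
  have e1 : 2 * η * U + η ^ 2 = 2 * δ * (x - o) + δ ^ 2 := by nlinarith
  have e2 : 2 * η * U' + η ^ 2 = 2 * δ * (x' - o) + δ ^ 2 := by nlinarith
  have e3 : η * (U' - U) = δ * (x' - x) := by nlinarith
  have e4 : (U' - U) * (U' + U) = (x' - x) * ((x' - o) + (x - o)) := by nlinarith
  have e5 : η * ((x' - o) + (x - o)) = δ * (U' + U) := by
    have hne : (U' - U) ≠ 0 := by linarith
    have : (U' - U) * (η * ((x' - o) + (x - o))) = (U' - U) * (δ * (U' + U)) := by
      calc (U' - U) * (η * ((x' - o) + (x - o))) = (η * (U' - U)) * ((x' - o) + (x - o)) := by ring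
        _ = (δ * (x' - x)) * ((x' - o) + (x - o)) := by rw [e3]
        _ = δ * ((x' - x) * ((x' - o) + (x - o))) := by ring
        _ = δ * ((U' - U) * (U' + U)) := by rw [e4]
        _ = (U' - U) * (δ * (U' + U)) := by ring
    exact mul_left_cancel₀ hne this
  have hηδ : δ < η := by
    by_contra hcon
    push Not at hcon
    have h5 : 0 < (x' - o) + (x - o) := by linarith
    have h6 : η * ((x' - o) + (x - o)) ≤ δ * ((x' - o) + (x - o)) :=
      mul_le_mul_of_nonneg_right hcon h5.le
    have h7 : δ * ((x' - o) + (x - o)) < δ * (U' + U) :=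
      mul_lt_mul_of_pos_left (by linarith) hδ
    linarith
  have h8 : 2 * δ * (x - o) ≤ 2 * η * U := by
    have h9 : δ * (x - o) ≤ η * (x - o) := mul_le_mul_of_nonneg_right hηδ.le (by linarith)
    have h10 : η * (x - o) ≤ η * U := mul_le_mul_of_nonneg_left hU.le hηpos.le
    linarith
  have h11 : δ ^ 2 < η ^ 2 := by nlinarith
  linarith

/-- The difference set is controlled by the set of positive differences. -/
theorem card_sub_le (B : Finset ℝ) : (B - B).card ≤ 2 * (rd B).card + 1 := by
  have h1 : B - B ⊆ (rd B ∪ (rd B).image (fun x => -x)) ∪ {0} := by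
    intro z hz
    obtain ⟨x, hx, y, hy, rfl⟩ := Finset.mem_sub.1 hz
    simp only [Finset.mem_union, Finset.mem_image, Finset.mem_singleton]
    rcases lt_trichotomy x y with h | h | h
    · left; right
      refine ⟨y - x, mem_rd.2 ⟨x, hx, y, hy, h.ne, ?_⟩, by ring⟩
      rw [abs_of_neg (by linarith)]; ring
    · right; rw [h]; ring
    · left; left
      exact mem_rd.2 ⟨x, hx, y, hy, h.ne', abs_of_pos (by linarith)⟩
  have h2 := Finset.card_le_card h1
  have h3 := Finset.card_union_le (rd B ∪ (rd B).image (fun x => -x)) {0}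
  have h4 := Finset.card_union_le (rd B) ((rd B).image (fun x => -x))
  have h5 : ((rd B).image (fun x => -x)).card ≤ (rd B).card := Finset.card_image_le
  rw [Finset.card_singleton] at h3
  omega

/-- coincidences on the right side of `o` -/
theorem right_bound {B : Finset ℝ} {o ρ : ℝ} (hρ : 0 < ρ) (hB : (B - B).card ≤ 3 * B.card) :
    ((B.filter (fun b => o ≤ b ∧ uu o ρ b ∈ rd B)).card - 1) ^ 3 ≤ 27 * 6561 * B.card ^ 2 := by
  classical
  set R := B.filter (fun b => o ≤ b ∧ uu o ρ b ∈ rd B) with hR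
  rcases Nat.lt_or_ge R.card 2 with hlt | hge
  · have : R.card - 1 = 0 := by omega
    rw [this]; simp
  set N := R.card - 1 with hN
  have hRcard : R.card = N + 1 := by omega
  let e := R.orderEmbOfFin hRcard
  let a : ℕ → ℝ := fun i => if h : i < N + 1 then e ⟨i, h⟩ else 0
  have ha' : ∀ i (h : i < N + 1), a i = e ⟨i, h⟩ := fun i h => by simp only [a]; rw [dif_pos h]
  have haR : ∀ i ≤ N, a i ∈ R := by
    intro i hi
    rw [ha' i (by omega)]
    exact Finset.orderEmbOfFin_mem R hRcard _
  have hao : ∀ i ≤ N, o ≤ a i := fun i hi => by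
    have := haR i hi
    rw [hR, Finset.mem_filter] at this
    exact this.2.1
  have haB : ∀ i ≤ N, a i ∈ B := fun i hi => Finset.mem_of_mem_filter _ (haR i hi)
  have hau : ∀ i ≤ N, uu o ρ (a i) ∈ rd B := fun i hi => by
    have := haR i hi
    rw [hR, Finset.mem_filter] at this
    exact this.2.2
  have ha : ∀ i j, i < j → j ≤ N → a i < a j := by
    intro i j hij hj
    rw [ha' i (by omega), ha' j (by omega)]
    exact e.strictMono (by exact hij)
  have hBne : B.Nonempty := ⟨a 0, haB 0 (Nat.zero_le _)⟩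
  have hBpos : 0 < B.card := Finset.card_pos.2 hBne
  have hQ : (2 • B - B).card ≤ 27 * B.card := by
    have h1 := Finset.pluennecke_ruzsa_inequality_nsmul_sub_nsmul_sub hBne B 2 1
    have hq : (0 : ℚ≥0) < B.card := by exact_mod_cast hBpos
    have h2 : ((B - B).card / B.card : ℚ≥0) ≤ 3 := by
      rw [div_le_iff₀ hq]
      exact_mod_cast hB
    have h3 : ((B - B).card / B.card : ℚ≥0) ^ (2 + 1) * B.card ≤ 3 ^ (2 + 1) * B.card := by
      gcongr
    have h4 := h1.trans h3
    norm_num at h4
    exact_mod_cast h4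
  have key := squeeze (N := N) (a := a) (b := fun i => uu o ρ (a i)) ha
    (fun i j hij hj => uu_lt (hao i (by omega)) (ha i j hij hj)) ?_
    (S := B.image (fun x => -x)) (T := B) (P := B - B) (Q := 2 • B - B) ?_ ?_
  · rw [Finset.card_image_of_injective _ neg_injective] at key
    have h5 : 27 * ((B - B).card ^ 2 * (2 • B - B).card ^ 2) ≤
        27 * ((3 * B.card) ^ 2 * (27 * B.card) ^ 2) := by gcongr
    have h6 : N ^ 3 * (B.card * B.card) ≤ (27 * 6561 * B.card ^ 2) * (B.card * B.card) := by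
      calc _ ≤ _ := key
        _ ≤ _ := h5
        _ = _ := by ring
    exact Nat.le_of_mul_le_mul_right h6 (by positivity)
  · intro i j hij hj hgap
    have h1 : a (i + 1) = a i + (a (i + 1) - a i) := by ring
    have h2 : a (j + 1) = a j + (a (i + 1) - a i) := by rw [hgap]; ring
    have hδ : 0 < a (i + 1) - a i := by
      have := ha i (i + 1) (Nat.lt_succ_self i) (by omega)
      linarith
    have h3 := uu_conv (δ := a (i + 1) - a i) hρ (hao i (by omega)) (ha i j hij (by omega)) hδ
    rw [← h1, ← h2] at h3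
    exact h3
  · intro i hi s hs
    obtain ⟨x, hx, rfl⟩ := Finset.mem_image.1 hs
    rw [← sub_eq_add_neg]
    exact Finset.sub_mem_sub (haB i hi) hx
  · intro i hi t ht
    obtain ⟨x, hx, y, hy, hxy, h⟩ := mem_rd.1 (hau i hi)
    rw [← h, two_nsmul]
    rcases le_total y x with hyx | hyx
    · rw [abs_of_nonneg (by linarith)]
      have : x - y + t = (x + t) - y := by ring
      rw [this]
      exact Finset.sub_mem_sub (Finset.add_mem_add hx ht) hy
    · rw [abs_of_nonpos (by linarith)]
      have : -(x - y) + t = (y + t) - x := by ring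
      rw [this]
      exact Finset.sub_mem_sub (Finset.add_mem_add hy ht) hx

end Pool.Agent.LargeDist
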