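import Mathlib

set_option autoImplicit false

/-!
# An elementary squeezing inequality (in the spirit of Elekes, Nathanson and Ruzsa)
-/

namespace Pool.Agent.LargeDist

open Finset

/-- number of elements of `P` in the half-open interval `(x, y]` -/
noncomputable def cnt (P : Finset ℝ) (x y : ℝ) : ℕ := (P.filter (fun z => x < z ∧ z ≤ y)).card

theorem cnt_inj {P : Finset ℝ} {x y y' : ℝ} (hy : y ∈ P) (hy' : y' ∈ P) (hxy : x < y)
    (hxy' : x < y') (h : cnt P x y = cnt P x y') : y = y' := by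
  have key : ∀ y y' : ℝ, y' ∈ P → x < y' → y < y' → cnt P x y < cnt P x y' := by
    intro y y' hy' hxy' hlt
    unfold cnt
    apply Finset.card_lt_card
    rw [Finset.ssubset_iff_of_subset]
    · refine ⟨y', ?_, ?_⟩
      · rw [Finset.mem_filter]; exact ⟨hy', hxy', le_refl _⟩
      · rw [Finset.mem_filter]; rintro ⟨_, _, h⟩; exact absurd h (not_le.2 hlt)
    · intro z hz
      rw [Finset.mem_filter] at hz ⊢
      exact ⟨hz.1, hz.2.1, hz.2.2.trans hlt.le⟩
  rcases lt_trichotomy y y' with hlt | heq | hgt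
  · exact absurd h (key y y' hy' hxy' hlt).ne
  · exact heq
  · exact absurd h.symm (key y' y hy hxy hgt).ne

theorem cnt_pos {P : Finset ℝ} {x y : ℝ} (hy : y ∈ P) (hxy : x < y) : 1 ≤ cnt P x y := by
  unfold cnt
  rw [Nat.one_le_iff_ne_zero, ← Nat.pos_iff_ne_zero, Finset.card_pos]
  exact ⟨y, by rw [Finset.mem_filter]; exact ⟨hy, hxy, le_refl _⟩⟩

/-- For a fixed shift `s`, few indices have many elements of `P` between consecutive points. -/
theorem bad_card {N : ℕ} (hN : 0 < N) {a : ℕ → ℝ} (ha : ∀ i j, i < j → j ≤ N → a i < a j)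
    {P : Finset ℝ} {s : ℝ} (hPne : P.Nonempty) :
    3 * ((Finset.range N).filter (fun i => 3 * P.card < cnt P (a i + s) (a (i + 1) + s) * N)).card
      < N := by
  classical
  set B := (Finset.range N).filter (fun i => 3 * P.card < cnt P (a i + s) (a (i + 1) + s) * N)
    with hB
  have hsum : ∑ i ∈ Finset.range N, cnt P (a i + s) (a (i + 1) + s) ≤ P.card := by
    unfold cnt
    rw [← Finset.card_biUnion]
    · apply Finset.card_le_card
      intro z hz
      rw [Finset.mem_biUnion] at hz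
      obtain ⟨i, _, hz⟩ := hz
      exact Finset.mem_of_mem_filter _ hz
    · intro i hi j hj hij
      rw [Function.onFun, Finset.disjoint_left]
      intro z hz1 hz2
      rw [Finset.mem_filter] at hz1 hz2
      have hi' := Finset.mem_range.1 (Finset.mem_coe.1 hi)
      have hj' := Finset.mem_range.1 (Finset.mem_coe.1 hj)
      rcases lt_trichotomy i j with h | h | h
      · have h1 : a (i + 1) ≤ a j := by
          rcases Nat.lt_or_ge (i + 1) j with h2 | h2
          · exact (ha _ _ h2 hj'.le).le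
          · have : i + 1 = j := by omega
            rw [this]
        have h3 := hz1.2.2
        have h4 := hz2.2.1
        linarith
      · exact hij h
      · have h1 : a (j + 1) ≤ a i := by
          rcases Nat.lt_or_ge (j + 1) i with h2 | h2
          · exact (ha _ _ h2 hi'.le).le
          · have : j + 1 = i := by omega
            rw [this]
        have h3 := hz2.2.2
        have h4 := hz1.2.1
        linarith
  by_contra hcon
  push Not at hcon
  have hPpos : 0 < P.card := Finset.card_pos.2 hPne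
  have hBpos : 0 < B.card := by omega
  have hBne : B.Nonempty := Finset.card_pos.1 hBpos
  have h1 : ∑ _i ∈ B, 3 * P.card < ∑ i ∈ B, cnt P (a i + s) (a (i + 1) + s) * N := by
    apply Finset.sum_lt_sum_of_nonempty hBne
    intro i hi
    rw [hB, Finset.mem_filter] at hi
    exact hi.2
  rw [Finset.sum_const, smul_eq_mul, ← Finset.sum_mul] at h1
  have h2 : ∑ i ∈ B, cnt P (a i + s) (a (i + 1) + s) ≤
      ∑ i ∈ Finset.range N, cnt P (a i + s) (a (i + 1) + s) :=
    Finset.sum_le_sum_of_subset (Finset.filter_subset _ _)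
  have h3 : (∑ i ∈ B, cnt P (a i + s) (a (i + 1) + s)) * N ≤ P.card * N :=
    Nat.mul_le_mul_right _ (h2.trans hsum)
  have h4 : N * P.card ≤ 3 * B.card * P.card := Nat.mul_le_mul_right _ hcon
  nlinarith

/-- The squeezing inequality. -/
theorem squeeze {N : ℕ} {a b : ℕ → ℝ} (ha : ∀ i j, i < j → j ≤ N → a i < a j)
    (hb : ∀ i j, i < j → j ≤ N → b i < b j)
    (hconv : ∀ i j, i < j → j < N → a (i + 1) - a i = a (j + 1) - a j →
      b (i + 1) - b i ≠ b (j + 1) - b j)
    {S T P Q : Finset ℝ} (hP : ∀ i ≤ N, ∀ s ∈ S, a i + s ∈ P) (hQ : ∀ i ≤ N, ∀ t ∈ T, b i + t ∈ Q) :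
    N ^ 3 * (S.card * T.card) ≤ 27 * (P.card ^ 2 * Q.card ^ 2) := by
  classical
  rcases Nat.eq_zero_or_pos N with rfl | hN
  · simp
  rcases S.eq_empty_or_nonempty with rfl | hS
  · simp
  rcases T.eq_empty_or_nonempty with rfl | hT
  · simp
  obtain ⟨s₀, hs₀⟩ := hS
  obtain ⟨t₀, ht₀⟩ := hT
  have hPne : P.Nonempty := ⟨_, hP 0 (Nat.zero_le _) s₀ hs₀⟩
  have hQne : Q.Nonempty := ⟨_, hQ 0 (Nat.zero_le _) t₀ ht₀⟩
  let cP : ℕ → ℝ → ℕ := fun i s => cnt P (a i + s) (a (i + 1) + s)
  let cQ : ℕ → ℝ → ℕ := fun i t => cnt Q (b i + t) (b (i + 1) + t)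
  let good : ℝ → ℝ → Finset ℕ := fun s t =>
    (Finset.range N).filter (fun i => cP i s * N ≤ 3 * P.card ∧ cQ i t * N ≤ 3 * Q.card)
  have hgood : ∀ s t, N ≤ 3 * (good s t).card := by
    intro s t
    have h1 := bad_card hN ha (s := s) hPne
    have h2 := bad_card hN hb (s := t) hQne
    set B1 := (Finset.range N).filter
      (fun i => 3 * P.card < cnt P (a i + s) (a (i + 1) + s) * N) with hB1
    set B2 := (Finset.range N).filter
      (fun i => 3 * Q.card < cnt Q (b i + t) (b (i + 1) + t) * N) with hB2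
    have h3 : Finset.range N ⊆ (good s t) ∪ (B1 ∪ B2) := by
      intro i hi
      rw [Finset.mem_union, Finset.mem_union]
      by_cases h4 : 3 * P.card < cnt P (a i + s) (a (i + 1) + s) * N
      · right; left; rw [hB1, Finset.mem_filter]; exact ⟨hi, h4⟩
      by_cases h5 : 3 * Q.card < cnt Q (b i + t) (b (i + 1) + t) * N
      · right; right; rw [hB2, Finset.mem_filter]; exact ⟨hi, h5⟩
      left
      simp only [good, Finset.mem_filter]
      exact ⟨hi, not_lt.1 h4, not_lt.1 h5⟩
    have h4 := Finset.card_le_card h3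
    rw [Finset.card_range] at h4
    have h5 := Finset.card_union_le (good s t) (B1 ∪ B2)
    have h6 := Finset.card_union_le B1 B2
    omega
  -- the set of good triples
  let G : Finset ((ℝ × ℝ) × ℕ) := ((S ×ˢ T) ×ˢ Finset.range N).filter
    (fun x => cP x.2 x.1.1 * N ≤ 3 * P.card ∧ cQ x.2 x.1.2 * N ≤ 3 * Q.card)
  have hGcard : N * (S.card * T.card) ≤ 3 * G.card := by
    have h1 : G.card = ∑ x ∈ S ×ˢ T, (good x.1 x.2).card := by
      have h2 : G = (S ×ˢ T).biUnion (fun x => (good x.1 x.2).image (fun i => (x, i))) := by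
        ext ⟨⟨s, t⟩, i⟩
        simp only [G, good, Finset.mem_filter, Finset.mem_product, Finset.mem_biUnion,
          Finset.mem_image, Prod.mk.injEq, Prod.exists]
        constructor
        · rintro ⟨⟨⟨hs, ht⟩, hi⟩, h⟩
          exact ⟨s, t, ⟨hs, ht⟩, i, ⟨hi, h⟩, ⟨rfl, rfl⟩, rfl⟩
        · rintro ⟨s', t', ⟨hs, ht⟩, i', ⟨hi, h⟩, ⟨rfl, rfl⟩, rfl⟩
          exact ⟨⟨⟨hs, ht⟩, hi⟩, h⟩
      rw [h2, Finset.card_biUnion]
      · apply Finset.sum_congr rfl
        intro x _
        rw [Finset.card_image_of_injective]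
        intro i j hij
        exact (Prod.mk.inj hij).2
      · intro x _ y _ hxy
        rw [Function.onFun, Finset.disjoint_left]
        intro z hz1 hz2
        obtain ⟨i, _, rfl⟩ := Finset.mem_image.1 hz1
        obtain ⟨j, _, hj⟩ := Finset.mem_image.1 hz2
        exact hxy (Prod.mk.inj hj).1.symm
    have h3 : ∑ _x ∈ S ×ˢ T, N ≤ ∑ x ∈ S ×ˢ T, 3 * (good x.1 x.2).card :=
      Finset.sum_le_sum (fun x _ => hgood x.1 x.2)
    rw [Finset.sum_const, smul_eq_mul, Finset.card_product, ← Finset.mul_sum, ← h1] at h3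
    rw [mul_comm]
    exact h3
  -- the injection
  let Φ : ((ℝ × ℝ) × ℕ) → ((ℝ × ℕ) × (ℝ × ℕ)) := fun x =>
    ((a x.2 + x.1.1, cP x.2 x.1.1), (b x.2 + x.1.2, cQ x.2 x.1.2))
  have hmaps : ∀ x ∈ G, Φ x ∈ (P ×ˢ Finset.Icc 1 (3 * P.card / N)) ×ˢ
      (Q ×ˢ Finset.Icc 1 (3 * Q.card / N)) := by
    rintro ⟨⟨s, t⟩, i⟩ hx
    simp only [G, Finset.mem_filter, Finset.mem_product, Finset.mem_range] at hx
    obtain ⟨⟨⟨hs, ht⟩, hi⟩, h1, h2⟩ := hx
    simp only [Φ, Finset.mem_product, Finset.mem_Icc]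
    refine ⟨⟨hP i hi.le s hs, ?_, ?_⟩, hQ i hi.le t ht, ?_, ?_⟩
    · apply cnt_pos (hP (i + 1) hi s hs)
      have := ha i (i + 1) (Nat.lt_succ_self i) hi
      linarith
    · exact (Nat.le_div_iff_mul_le hN).2 h1
    · apply cnt_pos (hQ (i + 1) hi t ht)
      have := hb i (i + 1) (Nat.lt_succ_self i) hi
      linarith
    · exact (Nat.le_div_iff_mul_le hN).2 h2
  have hinj : Set.InjOn Φ (G : Set ((ℝ × ℝ) × ℕ)) := by
    rintro ⟨⟨s, t⟩, i⟩ hx ⟨⟨s', t'⟩, i'⟩ hx' heq
    have hx := Finset.mem_coe.1 hx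
    have hx' := Finset.mem_coe.1 hx'
    simp only [G, Finset.mem_filter, Finset.mem_product, Finset.mem_range] at hx hx'
    obtain ⟨⟨⟨hs, ht⟩, hi⟩, -, -⟩ := hx
    obtain ⟨⟨⟨hs', ht'⟩, hi'⟩, -, -⟩ := hx'
    simp only [Φ, Prod.mk.injEq] at heq
    obtain ⟨⟨h1, h2⟩, h3, h4⟩ := heq
    have hai := ha i (i + 1) (Nat.lt_succ_self i) hi
    have hai' := ha i' (i' + 1) (Nat.lt_succ_self i') hi'
    have hbi := hb i (i + 1) (Nat.lt_succ_self i) hi
    have hbi' := hb i' (i' + 1) (Nat.lt_succ_self i') hi'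
    have e1 : a (i + 1) + s = a (i' + 1) + s' := by
      apply cnt_inj (x := a i + s) (hP (i + 1) hi s hs) (hP (i' + 1) hi' s' hs') (by linarith)
        (by linarith)
      have : cP i s = cP i' s' := h2
      simp only [cP] at this
      rw [this, h1]
    have e2 : b (i + 1) + t = b (i' + 1) + t' := by
      apply cnt_inj (x := b i + t) (hQ (i + 1) hi t ht) (hQ (i' + 1) hi' t' ht') (by linarith)
        (by linarith)
      have : cQ i t = cQ i' t' := h4
      simp only [cQ] at this
      rw [this, h3]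
    have hii : i = i' := by
      rcases lt_trichotomy i i' with h | h | h
      · exact absurd (by linarith) (hconv i i' h hi' (by linarith))
      · exact h
      · exact absurd (by linarith) (hconv i' i h hi (by linarith))
    subst hii
    have hs' : s = s' := by linarith
    have ht' : t = t' := by linarith
    subst hs'
    subst ht'
    rfl
  have hcard := Finset.card_le_card_of_injOn Φ hmaps hinj
  rw [Finset.card_product, Finset.card_product, Finset.card_product, Nat.card_Icc, Nat.card_Icc,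
    Nat.add_sub_cancel, Nat.add_sub_cancel] at hcard
  have hd1 : N * (3 * P.card / N) ≤ 3 * P.card := Nat.mul_div_le _ _
  have hd2 : N * (3 * Q.card / N) ≤ 3 * Q.card := Nat.mul_div_le _ _
  calc N ^ 3 * (S.card * T.card) = N ^ 2 * (N * (S.card * T.card)) := by ring
    _ ≤ N ^ 2 * (3 * G.card) := Nat.mul_le_mul_left _ hGcard
    _ ≤ N ^ 2 * (3 * (P.card * (3 * P.card / N) * (Q.card * (3 * Q.card / N)))) :=
        Nat.mul_le_mul_left _ (Nat.mul_le_mul_left _ hcard)
    _ = 3 * (P.card * Q.card) * ((N * (3 * P.card / N)) * (N * (3 * Q.card / N))) := by ring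
    _ ≤ 3 * (P.card * Q.card) * ((3 * P.card) * (3 * Q.card)) :=
        Nat.mul_le_mul_left _ (Nat.mul_le_mul hd1 hd2)
    _ = 27 * (P.card ^ 2 * Q.card ^ 2) := by ring

end Pool.Agent.LargeDist
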