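import Pool.Agent.LargeDist.Color

set_option autoImplicit false

namespace Pool.Agent.LargeDist

open Finset Module

variable {d : ℕ}

/-- balls split into boundedly many classes of small diameter -/
theorem exists_splits_ball (d : ℕ) (δ : ℝ) (hδ : 0 < δ) :
    ∃ n : ℕ, ∀ (P : Finset (EuclideanSpace ℝ (Fin d))) (q : EuclideanSpace ℝ (Fin d)) (r : ℝ),
      0 < r → (∀ x ∈ P, dist x q ≤ r) → Splits P (δ * r) n := by
  classical
  obtain ⟨t, -, ht, hcov⟩ := (isCompact_closedBall (0 : EuclideanSpace ℝ (Fin d)) 1).finite_cover_balls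
    (half_pos hδ)
  lift t to Finset (EuclideanSpace ℝ (Fin d)) using ht
  refine ⟨t.card, ?_⟩
  intro P q r hr hP
  have h1 : ∀ x ∈ P, ∃ y ∈ t, dist ((1 / r) • (x - q)) y < δ / 2 := by
    intro x hx
    have hx1 : (1 / r) • (x - q) ∈ Metric.closedBall (0 : EuclideanSpace ℝ (Fin d)) 1 := by
      rw [mem_closedBall_zero_iff, norm_smul, Real.norm_eq_abs, abs_of_pos (by positivity),
        ← dist_eq_norm]
      calc 1 / r * dist x q ≤ 1 / r * r := mul_le_mul_of_nonneg_left (hP x hx) (by positivity)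
        _ = 1 := by field_simp
    have := hcov hx1
    simp only [Set.mem_iUnion, Metric.mem_ball, Finset.mem_coe, exists_prop] at this
    exact this
  choose! g hg hg' using h1
  obtain ⟨e⟩ : Nonempty (t ≃ Fin t.card) := ⟨t.equivFin⟩
  refine ⟨fun x => if hx : g x ∈ t then (e ⟨g x, hx⟩ : ℕ) else 0, ?_, ?_⟩
  · intro x hx
    simp only [hg x hx, dif_pos]
    exact (e _).2
  · intro x hx y hy hxy
    simp only [hg x hx, hg y hy, dif_pos] at hxy
    have h1 : e ⟨g x, hg x hx⟩ = e ⟨g y, hg y hy⟩ := Fin.ext hxy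
    have h2 : g x = g y := by
      have := e.injective h1
      simpa using this
    have h3 : dist ((1 / r) • (x - q)) ((1 / r) • (y - q)) < δ := by
      calc dist ((1 / r) • (x - q)) ((1 / r) • (y - q))
          ≤ dist ((1 / r) • (x - q)) (g x) + dist (g x) ((1 / r) • (y - q)) := dist_triangle _ _ _
        _ = dist ((1 / r) • (x - q)) (g x) + dist ((1 / r) • (y - q)) (g y) := by
            rw [h2, dist_comm (g y)]
        _ < δ / 2 + δ / 2 := add_lt_add (hg' x hx) (hg' y hy)
        _ = δ := by ring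
    rw [dist_smul₀, dist_sub_right, Real.norm_eq_abs, abs_of_pos (by positivity)] at h3
    have h4 : r * (1 / r * dist x y) < r * δ := mul_lt_mul_of_pos_left h3 hr
    have h5 : r * (1 / r * dist x y) = dist x y := by field_simp
    linarith

/-- The structure theorem: for `|S|` large, `S` is the union of a near part `Y`, which splits
into at most `5^d` classes without two points at distance at least `d_k`, and a far part `X`
which is a far set for `k` and `d_k`. -/
theorem structure_core (d k : ℕ) (hd : 2 ≤ d) (hk : 1 ≤ k) :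
    ∃ n₀ : ℕ, ∀ S : Finset (EuclideanSpace ℝ (Fin d)), n₀ ≤ S.card → k ≤ (dists S).card →
      ∃ X Y : Finset (EuclideanSpace ℝ (Fin d)), (∀ x ∈ S, x ∈ X ∨ x ∈ Y) ∧ X ⊆ S ∧
        Splits Y (kthDist S k) (5 ^ d) ∧ IsFarSet d k X (kthDist S k) := by
  classical
  obtain ⟨δ, hδ, Hδ⟩ := exists_good d
  obtain ⟨n₁, H₁⟩ := exists_splits_ball d δ hδ
  refine ⟨((k + 1) ^ (d + 1) * n₁) * (2 * (k + 1) ^ (d + 1)) + 1, ?_⟩
  intro S hS hkS
  set r := kthDist S k with hr_def
  have hr : 0 < r := dists_pos (kthDist_mem hk hkS)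
  set Ds := (dists S).filter (fun t => r ≤ t) with hDs_def
  have hDs : Ds.card = k := card_filter_kthDist hk hkS
  -- maximal separated set
  obtain ⟨M₀, hM₀S, hM₀sep, hM₀net⟩ := exists_net S r hr
  have hM₀card : M₀.card ≤ (k + 1) ^ (d + 1) := by
    apply card_le_of_dists
    rw [← hDs]
    apply Finset.card_le_card
    intro t ht
    obtain ⟨x, hx, y, hy, hxy, rfl⟩ := mem_dists.1 ht
    rw [hDs_def, Finset.mem_filter]
    exact ⟨mem_dists.2 ⟨x, hM₀S hx, y, hM₀S hy, hxy, rfl⟩, hM₀sep x hx y hy hxy⟩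
  -- split into small classes
  have hsplit : Splits S (δ * r) ((k + 1) ^ (d + 1) * n₁) := by
    have h1 : Splits (M₀.biUnion fun m => S.filter (fun x => dist x m < r)) (δ * r)
        (M₀.card * n₁) := by
      apply Splits.biUnion
      intro m _
      apply H₁ _ m r hr
      intro x hx
      rw [Finset.mem_filter] at hx
      exact hx.2.le
    refine (h1.mono (Nat.mul_le_mul_right _ hM₀card)).subset ?_
    intro x hx
    obtain ⟨m, hm, hxm⟩ := hM₀net x hx
    rw [Finset.mem_biUnion]
    exact ⟨m, hm, by rw [Finset.mem_filter]; exact ⟨hx, hxm⟩⟩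
  -- a large class
  obtain ⟨c, hc, hc'⟩ := hsplit
  obtain ⟨i, -, hi⟩ : ∃ i ∈ Finset.range ((k + 1) ^ (d + 1) * n₁),
      2 * (k + 1) ^ (d + 1) < (S.filter (fun x => c x = i)).card := by
    apply Finset.exists_lt_card_fiber_of_mul_lt_card_of_maps_to
    · intro x hx
      exact Finset.mem_range.2 (hc x hx)
    · rw [Finset.card_range]
      omega
  set C := S.filter (fun x => c x = i) with hC_def
  have hCS : C ⊆ S := Finset.filter_subset _ _
  have hCclose : ∀ x ∈ C, ∀ y ∈ C, dist x y < δ * r := by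
    intro x hx y hy
    rw [hC_def, Finset.mem_filter] at hx hy
    exact hc' x hx.1 y hy.1 (hx.2.trans hy.2.symm)
  -- far and near parts
  set X := S.filter (fun x => ∀ y ∈ C, r ≤ dist x y) with hX_def
  set Y := S.filter (fun x => ¬ ∀ y ∈ C, r ≤ dist x y) with hY_def
  have hXS : X ⊆ S := Finset.filter_subset _ _
  have hXC : ∀ x ∈ X, ∀ y ∈ C, r ≤ dist x y := by
    intro x hx
    rw [hX_def, Finset.mem_filter] at hx
    exact hx.2
  have hne : ∀ x y : EuclideanSpace ℝ (Fin d), r ≤ dist x y → x ≠ y := by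
    rintro x y h rfl
    rw [dist_self] at h
    linarith
  have hfar := far_flat (k := k) (Ds := Ds) hDs.le hd (C := C) (X := X) hi (by
    intro x hx y hy
    rw [hDs_def, Finset.mem_filter]
    have h := hXC x hx y hy
    exact ⟨mem_dists.2 ⟨x, hXS hx, y, hCS hy, hne x y h, rfl⟩, h⟩)
  obtain ⟨hrank, y₀, hy₀C, hy₀⟩ := hfar
  -- near part
  have hYsplit : Splits Y r (5 ^ d) := by
    obtain ⟨N, hNY, hNsep, hNnet⟩ := exists_net Y (r / 2) (half_pos hr)
    have hN : N.card ≤ 5 ^ d := by
      apply Hδ N y₀ r hr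
      · intro x hx
        have hxY := hNY hx
        rw [hY_def, Finset.mem_filter] at hxY
        obtain ⟨_, hx2⟩ := hxY
        push Not at hx2
        obtain ⟨y, hyC, hxy⟩ := hx2
        have h1 := hCclose y hyC y₀ hy₀C
        calc dist x y₀ ≤ dist x y + dist y y₀ := dist_triangle _ _ _
          _ ≤ r + δ * r := add_le_add hxy.le h1.le
          _ = (1 + δ) * r := by ring
      · exact hNsep
    exact (splits_of_net hNnet).mono hN
  refine ⟨X, Y, ?_, hXS, hYsplit, hrank, y₀, hy₀, fun x hx => hXC x hx y₀ hy₀C, ?_⟩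
  · intro x hx
    rw [hX_def, hY_def, Finset.mem_filter, Finset.mem_filter]
    by_cases h : ∀ y ∈ C, r ≤ dist x y
    · exact Or.inl ⟨hx, h⟩
    · exact Or.inr ⟨hx, h⟩
  rw [← hDs]
  apply Finset.card_le_card
  intro t ht
  rw [Finset.mem_filter] at ht
  obtain ⟨ht, hrt⟩ := ht
  obtain ⟨x, hx, y, hy, hxy, rfl⟩ := mem_dists.1 ht
  rw [hDs_def, Finset.mem_filter]
  refine ⟨?_, hrt⟩
  have hins : ∀ z ∈ insert y₀ X, z ∈ S := by
    intro z hz
    rcases Finset.mem_insert.1 hz with rfl | hz
    · exact hCS hy₀C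
    · exact hXS hz
  exact mem_dists.2 ⟨x, hins x hx, y, hins y hy, hxy, rfl⟩

/-- separated subsets of far sets are cone sets -/
theorem IsFarSet.cone {d k : ℕ} {X A : Finset (EuclideanSpace ℝ (Fin d))} {r : ℝ}
    (hX : IsFarSet d k X r) (hAX : A ⊆ X) (hAsep : ∀ x ∈ A, ∀ y ∈ A, x ≠ y → r ≤ dist x y) :
    IsConeSet d k A := by
  classical
  obtain ⟨hrank, y₀, hy₀, hXr, hcard⟩ := hX
  refine ⟨?_, y₀, ?_, ?_⟩
  · have h1 : vectorSpan ℝ (A : Set (EuclideanSpace ℝ (Fin d))) ≤
        vectorSpan ℝ (X : Set (EuclideanSpace ℝ (Fin d))) :=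
      vectorSpan_mono ℝ (by exact_mod_cast hAX)
    have h2 := Submodule.finrank_mono h1
    omega
  · intro h
    exact hy₀ (affineSpan_mono ℝ (by exact_mod_cast hAX) h)
  · refine le_trans (Finset.card_le_card ?_) hcard
    intro t ht
    rw [Finset.mem_filter]
    refine ⟨dists_mono (Finset.insert_subset_insert _ hAX) ht, ?_⟩
    obtain ⟨x, hx, y, hy, hxy, rfl⟩ := mem_dists.1 ht
    rw [Finset.mem_insert] at hx hy
    rcases hx with hx | hx <;> rcases hy with hy | hy
    · exact absurd (hx.trans hy.symm) hxy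
    · rw [hx, dist_comm]
      exact hXr y (hAX hy)
    · rw [hy]
      exact hXr x (hAX hx)
    · exact hAsep x hx y hy hxy

/-- the threshold graph is coloured by a splitting -/
theorem chromaticNumber_threshold_le {d : ℕ} {X : Finset (EuclideanSpace ℝ (Fin d))} {r : ℝ}
    {n : ℕ} (h : Splits X r n) : (thresholdGraph X r).chromaticNumber ≤ n := by
  obtain ⟨c, hc, hc'⟩ := h
  have hcol : (thresholdGraph X r).Colorable n := by
    refine ⟨SimpleGraph.Coloring.mk (fun x => ⟨c x, hc x x.2⟩) ?_⟩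
    intro x y hxy heq
    have h1 : c x = c y := by simpa using heq
    have h2 := hc' x x.2 y y.2 h1
    exact absurd hxy.2 (not_le.2 h2)
  exact hcol.chromaticNumber_le

/-- a colouring of the threshold graph is a splitting -/
theorem splits_of_colorable {d : ℕ} {X : Finset (EuclideanSpace ℝ (Fin d))} {r : ℝ} (hr : 0 < r)
    {n : ℕ} (h : (thresholdGraph X r).Colorable n) : Splits X r n := by
  classical
  obtain ⟨C⟩ := h
  refine ⟨fun x => if hx : x ∈ X then (C ⟨x, hx⟩ : ℕ) else 0, ?_, ?_⟩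
  · intro x hx
    simp only [hx, dif_pos]
    exact (C _).2
  · intro x hx y hy hxy
    simp only [hx, hy, dif_pos] at hxy
    have h1 : C ⟨x, hx⟩ = C ⟨y, hy⟩ := Fin.ext hxy
    by_contra hcon
    push Not at hcon
    have hne : (⟨x, hx⟩ : X) ≠ ⟨y, hy⟩ := by
      intro h2
      have h3 : x = y := congrArg (fun u : X => u.1) h2
      rw [h3, dist_self] at hcon
      linarith
    exact C.valid (v := ⟨x, hx⟩) (w := ⟨y, hy⟩) ⟨hne, hcon⟩ h1

/-- a far set splits into at most `|A| 5^(d-2)` classes, `A` a cone set -/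
theorem IsFarSet.splits {d k : ℕ} {X : Finset (EuclideanSpace ℝ (Fin d))} {r : ℝ} (hr : 0 < r)
    (hX : IsFarSet d k X r) :
    ∃ A : Finset (EuclideanSpace ℝ (Fin d)), IsConeSet d k A ∧
      Splits X r (A.card * 5 ^ (d - 2)) := by
  classical
  obtain ⟨A, hAX, hAsep, hAnet⟩ := exists_net X r hr
  refine ⟨A, hX.cone hAX hAsep, ?_⟩
  have hrank := hX.1
  have h1 : Splits (A.biUnion fun m => X.filter (fun x => dist x m < r)) r
      (A.card * 5 ^ (d - 2)) := by
    apply Splits.biUnion
    intro m hm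
    obtain ⟨N, hNP, hNsep, hNnet⟩ := exists_net (X.filter (fun x => dist x m < r)) (r / 2)
      (half_pos hr)
    have hN : N.card ≤ 5 ^ finrank ℝ (vectorSpan ℝ (X : Set (EuclideanSpace ℝ (Fin d)))) := by
      apply card_le_flat (hNP.trans (Finset.filter_subset _ _)) (hAX hm) hr
      · intro x hx
        have := hNP hx
        rw [Finset.mem_filter] at this
        exact this.2.le
      · exact hNsep
    have hN' : N.card ≤ 5 ^ (d - 2) :=
      hN.trans (Nat.pow_le_pow_right (by norm_num) (by omega))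
    exact (splits_of_net hNnet).mono hN'
  refine h1.subset ?_
  intro x hx
  obtain ⟨m, hm, hxm⟩ := hAnet x hx
  rw [Finset.mem_biUnion]
  exact ⟨m, hm, by rw [Finset.mem_filter]; exact ⟨hx, hxm⟩⟩

theorem card_le_M {d k : ℕ} {A : Finset (EuclideanSpace ℝ (Fin d))} (hA : IsConeSet d k A) :
    (A.card : ℕ∞) ≤ M d k := by
  unfold M
  exact le_iSup (fun A : {A : Finset (EuclideanSpace ℝ (Fin d)) // IsConeSet d k A} =>
    (A.1.card : ℕ∞)) ⟨A, hA⟩

theorem F_le (d k : ℕ) : F d k ≤ 5 ^ (d - 2) * M d k := by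
  classical
  unfold F
  apply iSup_le
  rintro ⟨⟨X, r⟩, hX⟩
  simp only at hX ⊢
  rcases le_or_gt r 0 with hr | hr
  · -- the complete graph
    have hcone : IsConeSet d k X := by
      apply hX.cone (Finset.Subset.refl X)
      intro x _ y _ _
      exact hr.trans dist_nonneg
    have h1 : (thresholdGraph X r).chromaticNumber ≤ (X.card : ℕ∞) := by
      have := SimpleGraph.chromaticNumber_le_card (G := thresholdGraph X r)
      rwa [Fintype.card_coe] at this
    have h2 := card_le_M hcone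
    calc (thresholdGraph X r).chromaticNumber ≤ (X.card : ℕ∞) := h1
      _ ≤ M d k := h2
      _ = 1 * M d k := (one_mul _).symm
      _ ≤ 5 ^ (d - 2) * M d k := by
          gcongr
          exact_mod_cast Nat.one_le_pow _ _ (by norm_num)
  · obtain ⟨A, hA, hsplit⟩ := hX.splits hr
    have h1 := chromaticNumber_threshold_le hsplit
    refine h1.trans ?_
    push_cast
    rw [mul_comm (A.card : ℕ∞)]
    gcongr
    exact card_le_M hA

theorem f_le_F (d k : ℕ) (hd : 2 ≤ d) (hk : 1 ≤ k) : f d k ≤ F d k + 5 ^ d := by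
  classical
  obtain ⟨n₀, H⟩ := structure_core d k hd hk
  unfold f
  refine (iInf_le _ n₀).trans ?_
  apply iSup_le
  rintro ⟨S, hS, hkS⟩
  obtain ⟨X, Y, hXY, hXS, hYsplit, hfar⟩ := H S hS hkS
  have hr : 0 < kthDist S k := dists_pos (kthDist_mem hk hkS)
  have hF : (thresholdGraph X (kthDist S k)).chromaticNumber ≤ F d k := by
    unfold F
    exact le_iSup (fun p : {p : Finset (EuclideanSpace ℝ (Fin d)) × ℝ // IsFarSet d k p.1 p.2} =>
      (thresholdGraph p.1.1 p.1.2).chromaticNumber) ⟨(X, kthDist S k), hfar⟩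
  have hfin : (thresholdGraph X (kthDist S k)).chromaticNumber ≠ ⊤ := by
    have := SimpleGraph.chromaticNumber_le_card (G := thresholdGraph X (kthDist S k))
    intro h
    rw [h] at this
    exact absurd this (by simp)
  obtain ⟨m, hm⟩ := ENat.ne_top_iff_exists.1 hfin
  have hcol : (thresholdGraph X (kthDist S k)).Colorable m :=
    SimpleGraph.chromaticNumber_le_iff_colorable.1 (by rw [hm])
  have hsplit : Splits S (kthDist S k) (m + 5 ^ d) := by
    refine ((splits_of_colorable hr hcol).union hYsplit).subset ?_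
    intro x hx
    rw [Finset.mem_union]
    exact hXY x hx
  refine (chromaticNumber_le_of_splits hsplit).trans ?_
  push_cast
  rw [hm]
  gcongr

/-- `M d k` is finite -/
theorem M_le (d k : ℕ) : M d k ≤ ((k + 1) ^ (d + 1) : ℕ) := by
  unfold M
  apply iSup_le
  rintro ⟨A, h, y, hy, hk⟩
  have : (dists A).card ≤ k :=
    (Finset.card_le_card (dists_mono (Finset.subset_insert y A))).trans hk
  exact_mod_cast card_le_of_dists k A this

/-- `D m k` is finite -/
theorem D_le (m k : ℕ) : D m k ≤ ((k + 1) ^ (m + 1) : ℕ) := by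
  unfold D
  apply iSup_le
  rintro ⟨A, h⟩
  exact_mod_cast card_le_of_dists k A h

end Pool.Agent.LargeDist
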